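import Mathlib

set_option autoImplicit false

/-!
Growth of the powers of a linear map on a vector of a finite dimensional complex space: the rate of
growth is quantised.
-/

namespace Pool.Agent.Run7.h195.Mor

open Filter Topology Finset

variable {V : Type*} [NormedAddCommGroup V] [NormedSpace ℂ V] [FiniteDimensional ℂ V]

/-- `T^n v = o(a n)` -/
def Small (T : Module.End ℂ V) (a : ℕ → ℝ) (v : V) : Prop :=
  ∀ ε : ℝ, 0 < ε → ∀ᶠ n : ℕ in atTop, ‖(T ^ n) v‖ ≤ ε * a n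

/-- `T^n v = O(a n)` -/
def Big (T : Module.End ℂ V) (a : ℕ → ℝ) (v : V) : Prop :=
  ∃ C : ℝ, 0 ≤ C ∧ ∀ n : ℕ, ‖(T ^ n) v‖ ≤ C * a n

theorem norm_le_of (f : Module.End ℂ V) : ∃ C : ℝ, 0 < C ∧ ∀ v, ‖f v‖ ≤ C * ‖v‖ := by
  refine ⟨‖LinearMap.toContinuousLinearMap f‖ + 1, by positivity, fun v => ?_⟩
  have h := (LinearMap.toContinuousLinearMap f).le_opNorm v
  have h2 : (LinearMap.toContinuousLinearMap f) v = f v := rfl
  rw [h2] at h
  refine h.trans (mul_le_mul_of_nonneg_right (by linarith) (norm_nonneg _))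

omit [FiniteDimensional ℂ V] in
theorem Big.add {T : Module.End ℂ V} {a : ℕ → ℝ} {v w : V} (hv : Big T a v) (hw : Big T a w) :
    Big T a (v + w) := by
  obtain ⟨C, hC, h1⟩ := hv
  obtain ⟨D, hD, h2⟩ := hw
  refine ⟨C + D, by linarith, fun n => ?_⟩
  rw [map_add, add_mul]
  exact (norm_add_le _ _).trans (add_le_add (h1 n) (h2 n))

omit [FiniteDimensional ℂ V] in
theorem Big.zero {T : Module.End ℂ V} {a : ℕ → ℝ} : Big T a 0 :=
  ⟨0, le_rfl, fun n => by simp⟩

omit [FiniteDimensional ℂ V] in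
theorem Big.mono {T : Module.End ℂ V} {a b : ℕ → ℝ} {v : V} (hv : Big T a v)
    (h : ∀ n, a n ≤ b n) : Big T b v := by
  obtain ⟨C, hC, h1⟩ := hv
  exact ⟨C, hC, fun n => (h1 n).trans (mul_le_mul_of_nonneg_left (h n) hC)⟩

/-- the vectors with small powers -/
def smallSub (T : Module.End ℂ V) (a : ℕ → ℝ) (ha : ∀ n, 0 ≤ a n) : Submodule ℂ V where
  carrier := {v | Small T a v}
  add_mem' := by
    intro v w hv hw ε hε
    filter_upwards [hv (ε / 2) (by positivity), hw (ε / 2) (by positivity)] with n h1 h2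
    rw [map_add]
    refine (norm_add_le _ _).trans ?_
    linarith
  zero_mem' := by
    intro ε hε
    refine Eventually.of_forall fun n => ?_
    rw [map_zero, norm_zero]
    exact mul_nonneg hε.le (ha n)
  smul_mem' := by
    intro c v hv ε hε
    have hc : 0 < ‖c‖ + 1 := by positivity
    filter_upwards [hv (ε / (‖c‖ + 1)) (by positivity)] with n h1
    rw [map_smul, norm_smul]
    have h2 : ‖c‖ * ‖(T ^ n) v‖ ≤ (‖c‖ + 1) * ‖(T ^ n) v‖ :=
      mul_le_mul_of_nonneg_right (by linarith) (norm_nonneg _)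
    refine h2.trans ?_
    calc (‖c‖ + 1) * ‖(T ^ n) v‖ ≤ (‖c‖ + 1) * (ε / (‖c‖ + 1) * a n) :=
          mul_le_mul_of_nonneg_left h1 hc.le
      _ = ε * a n := by field_simp

theorem mem_smallSub {T : Module.End ℂ V} {a : ℕ → ℝ} (ha : ∀ n, 0 ≤ a n) {v : V} :
    v ∈ smallSub T a ha ↔ Small T a v := Iff.rfl

theorem Small.map {T f : Module.End ℂ V} (hf : Commute f T) {a : ℕ → ℝ} {v : V}
    (hv : Small T a v) : Small T a (f v) := by
  obtain ⟨C, hC, h1⟩ := norm_le_of f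
  intro ε hε
  filter_upwards [hv (ε / C) (by positivity)] with n h2
  have h3 : (T ^ n) (f v) = f ((T ^ n) v) := by
    have := (hf.pow_right n).eq
    have h4 := congrArg (fun g : Module.End ℂ V => g v) this
    simpa using h4.symm
  rw [h3]
  calc ‖f ((T ^ n) v)‖ ≤ C * ‖(T ^ n) v‖ := h1 _
    _ ≤ C * (ε / C * a n) := mul_le_mul_of_nonneg_left h2 hC.le
    _ = ε * a n := by field_simp

omit [FiniteDimensional ℂ V] in
theorem pow_eig {T : Module.End ℂ V} {μ : ℂ} {y : V} (hy : T y = μ • y) (n : ℕ) :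
    (T ^ n) y = μ ^ n • y := by
  induction n with
  | zero => simp
  | succ n ih => rw [pow_succ', Module.End.mul_apply, ih, map_smul, hy, smul_smul, pow_succ]

omit [FiniteDimensional ℂ V] in
/-- the identity `T ^ n x = μ ^ n x + ∑ T ^ i μ ^ (n - 1 - i) (T - μ) x` -/
theorem pow_expand (T : Module.End ℂ V) (μ : ℂ) (n : ℕ) (x : V) :
    (T ^ n) x = μ ^ n • x + ∑ i ∈ range n, μ ^ (n - 1 - i) • (T ^ i) ((T - μ • 1) x) := by
  have hc : Commute T (μ • (1 : Module.End ℂ V)) := (Commute.one_right T).smul_right μ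
  have h := hc.geom_sum₂_mul n
  have h2 := congrArg (fun g : Module.End ℂ V => g x) h
  simp only [Module.End.mul_apply, LinearMap.sub_apply, LinearMap.sum_apply] at h2
  have h3 : ∀ k : ℕ, (μ • (1 : Module.End ℂ V)) ^ k = μ ^ k • 1 := fun k => by
    rw [smul_pow, one_pow]
  simp only [h3, LinearMap.smul_apply, Module.End.one_apply, map_smul] at h2
  have h4 : (T ^ n) x = μ ^ n • x + ((T ^ n) x - μ ^ n • x) := by abel
  rw [h4, ← h2]
  congr 1

omit [FiniteDimensional ℂ V] in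
/-- upper bound on a generalised eigenspace -/
theorem upper {T : Module.End ℂ V} {μ : ℂ} {ρ : ℝ} (hρ : 0 < ρ) (hμ : ‖μ‖ ≤ ρ) (m : ℕ) :
    ∀ x : V, ((T - μ • 1) ^ (m + 1)) x = 0 → Big T (fun n => ((n : ℝ) + 1) ^ m * ρ ^ n) x := by
  induction m with
  | zero =>
    intro x hx
    refine ⟨‖x‖, norm_nonneg _, fun n => ?_⟩
    have h1 : T x = μ • x := by
      rw [zero_add, pow_one, LinearMap.sub_apply, sub_eq_zero] at hx
      simpa using hx
    simp only [pow_zero, one_mul]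
    rw [pow_eig h1, norm_smul, norm_pow, mul_comm]
    exact mul_le_mul_of_nonneg_left (pow_le_pow_left₀ (norm_nonneg _) hμ n) (norm_nonneg _)
  | succ m ih =>
    intro x hx
    have h1 : ((T - μ • 1) ^ (m + 1)) ((T - μ • 1) x) = 0 := by
      rw [← Module.End.mul_apply, ← pow_succ]; exact hx
    obtain ⟨C, hC, h2⟩ := ih _ h1
    refine ⟨‖x‖ + C / ρ, by positivity, fun n => ?_⟩
    rw [pow_expand T μ n x]
    refine (norm_add_le _ _).trans ?_
    have hn1 : (1 : ℝ) ≤ (n : ℝ) + 1 := by have : (0 : ℝ) ≤ n := Nat.cast_nonneg _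
                                           linarith
    have h3 : ‖μ ^ n • x‖ ≤ ‖x‖ * (((n : ℝ) + 1) ^ (m + 1) * ρ ^ n) := by
      rw [norm_smul, norm_pow, mul_comm]
      apply mul_le_mul_of_nonneg_left _ (norm_nonneg _)
      calc ‖μ‖ ^ n ≤ ρ ^ n := pow_le_pow_left₀ (norm_nonneg _) hμ n
        _ = 1 * ρ ^ n := (one_mul _).symm
        _ ≤ ((n : ℝ) + 1) ^ (m + 1) * ρ ^ n :=
          mul_le_mul_of_nonneg_right (one_le_pow₀ hn1) (by positivity)
    have h4 : ‖∑ i ∈ range n, μ ^ (n - 1 - i) • (T ^ i) ((T - μ • 1) x)‖ ≤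
        C / ρ * (((n : ℝ) + 1) ^ (m + 1) * ρ ^ n) := by
      refine (norm_sum_le _ _).trans ?_
      have h5 : ∀ i ∈ range n, ‖μ ^ (n - 1 - i) • (T ^ i) ((T - μ • 1) x)‖ ≤
          C / ρ * (((n : ℝ) + 1) ^ m * ρ ^ n) := by
        intro i hi
        rw [mem_range] at hi
        rw [norm_smul, norm_pow]
        have h6 : ‖μ‖ ^ (n - 1 - i) ≤ ρ ^ (n - 1 - i) := pow_le_pow_left₀ (norm_nonneg _) hμ _
        have h7 : ((i : ℝ) + 1) ^ m ≤ ((n : ℝ) + 1) ^ m := by
          apply pow_le_pow_left₀ (by positivity)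
          have : (i : ℝ) ≤ n := by exact_mod_cast hi.le
          linarith
        have h8 : ρ ^ n = ρ ^ (n - 1 - i) * ρ ^ i * ρ := by
          rw [← pow_add, ← pow_succ]; congr 1; omega
        calc ‖μ‖ ^ (n - 1 - i) * ‖(T ^ i) ((T - μ • 1) x)‖
            ≤ ρ ^ (n - 1 - i) * (C * (((i : ℝ) + 1) ^ m * ρ ^ i)) :=
              mul_le_mul h6 (h2 i) (norm_nonneg _) (by positivity)
          _ ≤ ρ ^ (n - 1 - i) * (C * (((n : ℝ) + 1) ^ m * ρ ^ i)) := by gcongr
          _ = C / ρ * (((n : ℝ) + 1) ^ m * ρ ^ n) := by rw [h8]; field_simp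
      refine (sum_le_sum h5).trans ?_
      rw [sum_const, card_range, nsmul_eq_mul]
      calc (n : ℝ) * (C / ρ * (((n : ℝ) + 1) ^ m * ρ ^ n))
          ≤ ((n : ℝ) + 1) * (C / ρ * (((n : ℝ) + 1) ^ m * ρ ^ n)) := by
            apply mul_le_mul_of_nonneg_right (by linarith) (by positivity)
        _ = C / ρ * (((n : ℝ) + 1) ^ (m + 1) * ρ ^ n) := by ring
    calc _ ≤ ‖x‖ * (((n : ℝ) + 1) ^ (m + 1) * ρ ^ n) + C / ρ * (((n : ℝ) + 1) ^ (m + 1) * ρ ^ n) :=
          add_le_add h3 h4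
      _ = _ := by ring

omit [FiniteDimensional ℂ V] in
/-- the last nonzero vector of the chain of a generalised eigenvector -/
theorem exists_last {T : Module.End ℂ V} {μ : ℂ} {x : V} (hx0 : x ≠ 0)
    (hx : x ∈ T.maxGenEigenspace μ) :
    ∃ m : ℕ, ((T - μ • 1) ^ (m + 1)) x = 0 ∧ ((T - μ • 1) ^ m) x ≠ 0 := by
  rw [Module.End.mem_maxGenEigenspace] at hx
  classical
  have h1 : Nat.find hx ≠ 0 := by
    intro h0
    have h2 := Nat.find_spec hx
    rw [h0, pow_zero] at h2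
    exact hx0 h2
  obtain ⟨m, hm⟩ := Nat.exists_eq_succ_of_ne_zero h1
  refine ⟨m, ?_, ?_⟩
  · have h2 := Nat.find_spec hx
    rw [hm] at h2
    exact h2
  · exact Nat.find_min hx (by omega)

omit [FiniteDimensional ℂ V] in
theorem eig_of_last {T : Module.End ℂ V} {μ : ℂ} {x : V} {m : ℕ}
    (h : ((T - μ • 1) ^ (m + 1)) x = 0) :
    T (((T - μ • 1) ^ m) x) = μ • (((T - μ • 1) ^ m) x) := by
  rw [pow_succ', Module.End.mul_apply, LinearMap.sub_apply, sub_eq_zero] at h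
  simpa using h

omit [FiniteDimensional ℂ V] in
theorem comm_pow (T : Module.End ℂ V) (μ : ℂ) (m : ℕ) : Commute ((T - μ • 1) ^ m) T :=
  ((Commute.refl T).sub_left ((Commute.one_left T).smul_left μ)).pow_left m

/-- The exponential case. -/
theorem quant_exp {T : Module.End ℂ V} {θ : ℝ} (hθ : 1 < θ) {v : V}
    (hv : Small T (fun n => θ ^ n) v) : ∃ ρ : ℝ, 1 < ρ ∧ ρ < θ ∧ Big T (fun n => ρ ^ n) v := by
  have ha : ∀ n : ℕ, 0 ≤ θ ^ n := fun n => by positivity
  set B := smallSub T (fun n => θ ^ n) ha with hB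
  have hmap : ∀ x ∈ B, T x ∈ B := fun x hx => Small.map (Commute.refl T) hx
  set TB : Module.End ℂ B := T.restrict hmap with hTB
  have hpow : ∀ (n : ℕ) (x : B), (((TB ^ n) x : B) : V) = (T ^ n) (x : V) := by
    intro n
    induction n with
    | zero => intro x; simp
    | succ n ih =>
      intro x
      rw [pow_succ', pow_succ', Module.End.mul_apply, Module.End.mul_apply, ← ih]
      rfl
  have htop := Module.End.iSup_maxGenEigenspace_eq_top TB
  have key : ∀ x : B, ∃ ρ : ℝ, 1 < ρ ∧ ρ < θ ∧ Big T (fun n => ρ ^ n) (x : V) := by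
    intro x
    have hx : x ∈ ⨆ μ, TB.maxGenEigenspace μ := by rw [htop]; trivial
    refine Submodule.iSup_induction (fun μ => TB.maxGenEigenspace μ)
      (motive := fun x : B => ∃ ρ : ℝ, 1 < ρ ∧ ρ < θ ∧ Big T (fun n => ρ ^ n) (x : V)) hx ?_ ?_ ?_
    · intro μ y hy
      by_cases hy0 : y = 0
      · subst hy0
        exact ⟨(1 + θ) / 2, by linarith, by linarith, Big.zero⟩
      obtain ⟨m, h1, h2⟩ := exists_last hy0 hy
      have h3 := eig_of_last h1
      set z : B := ((TB - μ • 1) ^ m) y with hz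
      have hz0 : (z : V) ≠ 0 := fun h => h2 (Subtype.ext h)
      have hzn : 0 < ‖(z : V)‖ := norm_pos_iff.2 hz0
      have hμ : ‖μ‖ < θ := by
        by_contra hcon
        rw [not_lt] at hcon
        have hzs : Small T (fun n => θ ^ n) (z : V) := z.2
        obtain ⟨n, hn⟩ := (hzs (‖(z : V)‖ / 2) (by positivity)).exists
        rw [← hpow, pow_eig h3] at hn
        have h4 : ‖((μ ^ n • z : B) : V)‖ = ‖μ‖ ^ n * ‖(z : V)‖ := by
          rw [Submodule.coe_smul, norm_smul, norm_pow]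
        rw [h4] at hn
        have h5 : θ ^ n ≤ ‖μ‖ ^ n := pow_le_pow_left₀ (by linarith) hcon n
        have h6 : 0 < θ ^ n := by positivity
        nlinarith
      set ρ := max ((1 + θ) / 2) ((‖μ‖ + θ) / 2) with hρ
      have hρ1 : 1 < ρ := lt_of_lt_of_le (by linarith) (le_max_left _ _)
      have hρθ : ρ < θ := max_lt (by linarith) (by linarith)
      have hμρ : ‖μ‖ < ρ := lt_of_lt_of_le (by linarith) (le_max_right _ _)
      set r := (max ‖μ‖ 1 + ρ) / 2 with hr
      have hm1 : max ‖μ‖ 1 < ρ := max_lt hμρ hρ1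
      have hr0 : 0 < r := by
        have : (1 : ℝ) ≤ max ‖μ‖ 1 := le_max_right _ _
        rw [hr]; linarith
      have hr1 : r < ρ := by rw [hr]; linarith
      have hμr : ‖μ‖ ≤ r := by
        have : ‖μ‖ ≤ max ‖μ‖ 1 := le_max_left _ _
        rw [hr]; linarith
      obtain ⟨C, hC, h4⟩ := upper (T := TB) hr0 hμr m y h1
      -- `(n + 1) ^ m r ^ n ≤ D ρ ^ n`
      have h5 : ∃ D : ℝ, 0 ≤ D ∧ ∀ n : ℕ, ((n : ℝ) + 1) ^ m * r ^ n ≤ D * ρ ^ n := by
        have hq : r / ρ < 1 := (div_lt_one (by linarith)).2 hr1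
        have hq0 : 0 < r / ρ := by positivity
        have h6 := tendsto_pow_const_mul_const_pow_of_lt_one m hq0.le hq
        have h7 : Tendsto (fun n : ℕ => ((n + 1 : ℕ) : ℝ) ^ m * (r / ρ) ^ (n + 1)) atTop (𝓝 0) :=
          h6.comp (tendsto_add_atTop_nat 1)
        obtain ⟨D, hD⟩ := h7.bddAbove_range
        refine ⟨max 0 (D / (r / ρ)), le_max_left _ _, fun n => ?_⟩
        have h8 : ((n + 1 : ℕ) : ℝ) ^ m * (r / ρ) ^ (n + 1) ≤ D := hD ⟨n, rfl⟩
        have h9 : ((n : ℝ) + 1) ^ m * (r / ρ) ^ n ≤ D / (r / ρ) := by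
          rw [le_div_iff₀ hq0]
          calc ((n : ℝ) + 1) ^ m * (r / ρ) ^ n * (r / ρ) =
                ((n + 1 : ℕ) : ℝ) ^ m * (r / ρ) ^ (n + 1) := by push_cast; ring
            _ ≤ D := h8
        have h10 : ((n : ℝ) + 1) ^ m * r ^ n = ((n : ℝ) + 1) ^ m * (r / ρ) ^ n * ρ ^ n := by
          rw [mul_assoc, ← mul_pow, div_mul_cancel₀ r (by linarith : ρ ≠ 0)]
        rw [h10]
        exact mul_le_mul_of_nonneg_right (h9.trans (le_max_right _ _)) (by positivity)
      obtain ⟨D, hD, h5⟩ := h5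
      refine ⟨ρ, hρ1, hρθ, C * D, mul_nonneg hC hD, fun n => ?_⟩
      have h6 := h4 n
      have h7 : ‖(T ^ n) (y : V)‖ = ‖(TB ^ n) y‖ := by rw [← hpow]; rfl
      rw [h7, mul_assoc]
      exact h6.trans (mul_le_mul_of_nonneg_left (h5 n) hC)
    · exact ⟨(1 + θ) / 2, by linarith, by linarith, Big.zero⟩
    · rintro y z ⟨ρ, h1, h2, h3⟩ ⟨ρ', h1', h2', h3'⟩
      refine ⟨max ρ ρ', lt_of_lt_of_le h1 (le_max_left _ _), max_lt h2 h2', ?_⟩
      rw [Submodule.coe_add]
      refine Big.add (h3.mono fun n => ?_) (h3'.mono fun n => ?_)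
      · exact pow_le_pow_left₀ (by linarith) (le_max_left _ _) n
      · exact pow_le_pow_left₀ (by linarith) (le_max_right _ _) n
  exact key ⟨v, hv⟩

end Pool.Agent.Run7.h195.Mor
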