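import Mathlib
import Pool.Agent.Run7.h195.Mor1

set_option autoImplicit false

namespace Pool.Agent.Run7.h195.Mor

open Filter Topology Finset

variable {V : Type*} [NormedAddCommGroup V] [NormedSpace ℂ V]

theorem diffs {T : Module.End ℂ V} {c : ℂ} (hc : ‖c‖ = 1) (h : ℕ) (m : ℕ) :
    ∀ (x : V) (B : ℝ), (∀ j ≤ m, ‖(T ^ (j * h)) x‖ ≤ B) →
      ‖((T ^ h - c • 1) ^ m) x‖ ≤ 2 ^ m * B := by
  induction m with
  | zero =>
    intro x B hB
    have := hB 0 le_rfl
    simpa using this
  | succ m ih =>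
    intro x B hB
    rw [pow_succ, Module.End.mul_apply]
    have h1 := ih ((T ^ h - c • 1) x) (2 * B) (fun j hj => by
      rw [LinearMap.sub_apply, map_sub, LinearMap.smul_apply, Module.End.one_apply, map_smul]
      refine (norm_sub_le _ _).trans ?_
      rw [norm_smul, hc, one_mul]
      have h2 := hB j (by omega)
      have h3 := hB (j + 1) (by omega)
      rw [← Module.End.mul_apply, ← pow_add, ← Nat.succ_mul]
      linarith)
    refine h1.trans (le_of_eq ?_)
    ring

theorem geom_apply {T : Module.End ℂ V} {μ : ℂ} {y : V} (hy : T y = μ • y) (h : ℕ) :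
    (∑ i ∈ range h, T ^ i * (μ • (1 : Module.End ℂ V)) ^ (h - 1 - i)) y =
      ((h : ℂ) * μ ^ (h - 1)) • y := by
  rw [LinearMap.sum_apply]
  have h1 : ∀ i ∈ range h, (T ^ i * (μ • (1 : Module.End ℂ V)) ^ (h - 1 - i)) y = μ ^ (h - 1) • y := by
    intro i hi
    rw [mem_range] at hi
    rw [smul_pow, one_pow, Module.End.mul_apply, LinearMap.smul_apply, Module.End.one_apply, map_smul,
      pow_eig hy, smul_smul, ← pow_add]
    congr 2
    omega
  rw [sum_congr rfl h1, sum_const, card_range, mul_smul]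
  simp [← Nat.cast_smul_eq_nsmul ℂ]

theorem lower {T : Module.End ℂ V} {μ : ℂ} (hμ : ‖μ‖ = 1) {x : V} {m : ℕ}
    (hx : ((T - μ • 1) ^ (m + 1)) x = 0) (h : ℕ) {B : ℝ} (hB : ∀ j ≤ m, ‖(T ^ (j * h)) x‖ ≤ B) :
    (h : ℝ) ^ m * ‖((T - μ • 1) ^ m) x‖ ≤ 2 ^ m * B := by
  have hc : Commute T (μ • (1 : Module.End ℂ V)) := (Commute.one_right T).smul_right μ
  set g : Module.End ℂ V := ∑ i ∈ range h, T ^ i * (μ • (1 : Module.End ℂ V)) ^ (h - 1 - i) with hg
  have h1 : T ^ h - μ ^ h • (1 : Module.End ℂ V) = g * (T - μ • 1) := by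
    rw [hg, hc.geom_sum₂_mul h, smul_pow, one_pow]
  have hgc : Commute g (T - μ • 1) := by
    rw [hg]
    apply Commute.sum_left
    intro i _
    have hT : Commute T (T - μ • 1) := (Commute.refl T).sub_right hc
    have hI : Commute (μ • (1 : Module.End ℂ V)) (T - μ • 1) :=
      (Commute.one_left _).smul_left μ
    exact (hT.pow_left i).mul_left (hI.pow_left _)
  have hy := eig_of_last hx
  set y := ((T - μ • 1) ^ m) x with hydef
  have h2 : ((T ^ h - μ ^ h • 1) ^ m) x = ((h : ℂ) * μ ^ (h - 1)) ^ m • y := by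
    rw [h1, hgc.mul_pow, Module.End.mul_apply, ← hydef]
    exact pow_eig (geom_apply hy h) m
  have h3 := diffs (T := T) (c := μ ^ h) (by rw [norm_pow, hμ, one_pow]) h m x B hB
  rw [h2, norm_smul, norm_pow, norm_mul, norm_pow, hμ, one_pow, mul_one, Complex.norm_natCast] at h3
  exact h3

variable [FiniteDimensional ℂ V]

/-- The polynomial case. -/
theorem quant_poly {T : Module.End ℂ V} {d : ℕ} {v : V}
    (hv : Small T (fun n => ((n : ℝ) + 1) ^ (d + 1)) v) : Big T (fun n => ((n : ℝ) + 1) ^ d) v := by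
  have ha : ∀ n : ℕ, 0 ≤ ((n : ℝ) + 1) ^ (d + 1) := fun n => by positivity
  set B := smallSub T (fun n => ((n : ℝ) + 1) ^ (d + 1)) ha with hB
  have hmap : ∀ x ∈ B, T x ∈ B := fun x hx => Small.map (Commute.refl T) hx
  set TB : Module.End ℂ B := T.restrict hmap with hTB
  have hpow : ∀ (n : ℕ) (x : B), (((TB ^ n) x : B) : V) = (T ^ n) (x : V) := by
    intro n
    induction n with
    | zero => intro x; simp
    | succ n ih =>
      intro x
      rw [pow_succ', pow_succ', Module.End.mul_apply, Module.End.mul_apply, ← ih]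
      rfl
  have htop := Module.End.iSup_maxGenEigenspace_eq_top TB
  have key : ∀ x : B, Big T (fun n => ((n : ℝ) + 1) ^ d) (x : V) := by
    intro x
    have hx : x ∈ ⨆ μ, TB.maxGenEigenspace μ := by rw [htop]; trivial
    refine Submodule.iSup_induction (fun μ => TB.maxGenEigenspace μ)
      (motive := fun x : B => Big T (fun n => ((n : ℝ) + 1) ^ d) (x : V)) hx ?_ ?_ ?_
    · intro μ y hy
      by_cases hy0 : y = 0
      · subst hy0
        exact Big.zero
      obtain ⟨m, h1, h2⟩ := exists_last hy0 hy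
      have h3 := eig_of_last h1
      set z : B := ((TB - μ • 1) ^ m) y with hz
      have hz0 : (z : V) ≠ 0 := fun h => h2 (Subtype.ext h)
      have hzn : 0 < ‖(z : V)‖ := norm_pos_iff.2 hz0
      have hBy : Big TB (fun n => ((n : ℝ) + 1) ^ d) y → Big T (fun n => ((n : ℝ) + 1) ^ d) (y : V) := by
        rintro ⟨C, hC, h4⟩
        refine ⟨C, hC, fun n => ?_⟩
        have h7 : ‖(T ^ n) (y : V)‖ = ‖(TB ^ n) y‖ := by rw [← hpow]; rfl
        rw [h7]; exact h4 n
      apply hBy
      have hμ : ‖μ‖ ≤ 1 := by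
        by_contra hcon
        rw [not_le] at hcon
        have hzs : Small T (fun n => ((n : ℝ) + 1) ^ (d + 1)) (z : V) := z.2
        have h4 := tendsto_pow_const_div_const_pow_of_one_lt (d + 1) hcon
        have h5 : Tendsto (fun n : ℕ => ((n + 1 : ℕ) : ℝ) ^ (d + 1) / ‖μ‖ ^ (n + 1)) atTop (𝓝 0) :=
          h4.comp (tendsto_add_atTop_nat 1)
        have h6 := (tendsto_order.1 h5).2 (‖(z : V)‖ / ‖μ‖) (by positivity)
        obtain ⟨n, hn, hn2⟩ := ((hzs 1 one_pos).and h6).exists
        rw [← hpow, pow_eig h3] at hn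
        have h4 : ‖((μ ^ n • z : B) : V)‖ = ‖μ‖ ^ n * ‖(z : V)‖ := by
          rw [Submodule.coe_smul, norm_smul, norm_pow]
        rw [h4, one_mul] at hn
        have hp : 0 < ‖μ‖ ^ n := by positivity
        rw [div_lt_div_iff₀ (by positivity) (by positivity), pow_succ] at hn2
        push_cast at hn2
        have h8 : ((n : ℝ) + 1) ^ (d + 1) < ‖(z : V)‖ * ‖μ‖ ^ n := by
          have h9 : ((n : ℝ) + 1) ^ (d + 1) * ‖μ‖ < (‖(z : V)‖ * ‖μ‖ ^ n) * ‖μ‖ := by
            calc _ < ‖(z : V)‖ * (‖μ‖ ^ n * ‖μ‖) := hn2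
              _ = _ := by ring
          exact lt_of_mul_lt_mul_right h9 (norm_nonneg _)
        linarith
      rcases lt_or_eq_of_le hμ with hμ1 | hμ1
      · -- decaying
        set r := (‖μ‖ + 1) / 2 with hr
        have hr0 : 0 < r := by have := norm_nonneg μ; rw [hr]; linarith
        have hr1 : r < 1 := by rw [hr]; linarith
        obtain ⟨C, hC, h4⟩ := upper (T := TB) hr0 (by rw [hr]; linarith) m y h1
        have h6 := tendsto_pow_const_mul_const_pow_of_lt_one m hr0.le hr1
        have h7 : Tendsto (fun n : ℕ => ((n + 1 : ℕ) : ℝ) ^ m * r ^ (n + 1)) atTop (𝓝 0) :=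
          h6.comp (tendsto_add_atTop_nat 1)
        obtain ⟨D, hD⟩ := h7.bddAbove_range
        refine ⟨C * max 0 (D / r), by positivity, fun n => ?_⟩
        have h8 : ((n + 1 : ℕ) : ℝ) ^ m * r ^ (n + 1) ≤ D := hD ⟨n, rfl⟩
        have h9 : ((n : ℝ) + 1) ^ m * r ^ n ≤ max 0 (D / r) := by
          refine le_trans ?_ (le_max_right _ _)
          rw [le_div_iff₀ hr0]
          calc ((n : ℝ) + 1) ^ m * r ^ n * r = ((n + 1 : ℕ) : ℝ) ^ m * r ^ (n + 1) := by
                push_cast; ring
            _ ≤ D := h8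
        have h10 : (1 : ℝ) ≤ ((n : ℝ) + 1) ^ d := one_le_pow₀ (by
          have : (0 : ℝ) ≤ n := Nat.cast_nonneg _
          linarith)
        calc ‖(TB ^ n) y‖ ≤ C * (((n : ℝ) + 1) ^ m * r ^ n) := h4 n
          _ ≤ C * max 0 (D / r) := mul_le_mul_of_nonneg_left h9 hC
          _ ≤ C * max 0 (D / r) * ((n : ℝ) + 1) ^ d := le_mul_of_one_le_right (by positivity) h10
      · -- modulus one
        have hmd : m ≤ d := by
          by_contra hcon
          rw [not_le] at hcon
          have hys : Small T (fun n => ((n : ℝ) + 1) ^ (d + 1)) (y : V) := y.2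
          set K : ℝ := 2 ^ m * ((m : ℝ) + 1) ^ (d + 1) with hK
          have hK0 : 0 < K := by positivity
          obtain ⟨n0, hn0⟩ := (hys (‖(z : V)‖ / (2 * K)) (by positivity)).exists_forall_of_atTop
          -- the bound for all `h ≥ n0`, `h ≥ 1`
          have h5 : ∀ h : ℕ, n0 ≤ h → 1 ≤ h →
              (h : ℝ) ^ m * ‖(z : V)‖ ≤ 2 ^ (m + 1) * ‖(y : V)‖ := by
            intro h hh hh1
            have hhR : (1 : ℝ) ≤ h := by exact_mod_cast hh1
            have h6 := lower (T := TB) hμ1 h1 h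
              (B := ‖(y : V)‖ + ‖(z : V)‖ / (2 * K) * (((m : ℝ) + 1) * h) ^ (d + 1)) ?_
            · have h7 : ‖((TB - μ • 1) ^ m) y‖ = ‖(z : V)‖ := rfl
              rw [h7] at h6
              have h8 : (2 : ℝ) ^ m * (‖(z : V)‖ / (2 * K) * (((m : ℝ) + 1) * h) ^ (d + 1)) =
                  ‖(z : V)‖ / 2 * (h : ℝ) ^ (d + 1) := by
                rw [hK, mul_pow]; field_simp
              rw [mul_add, h8] at h6
              have h9 : (h : ℝ) ^ (d + 1) ≤ (h : ℝ) ^ m := pow_le_pow_right₀ hhR (by omega)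
              have h10 : ‖(z : V)‖ / 2 * (h : ℝ) ^ (d + 1) ≤ ‖(z : V)‖ / 2 * (h : ℝ) ^ m :=
                mul_le_mul_of_nonneg_left h9 (by positivity)
              rw [pow_succ]
              linarith
            · intro j hj
              rcases Nat.eq_zero_or_pos j with rfl | hj0
              · rw [zero_mul, pow_zero, Module.End.one_apply]
                have : ‖y‖ = ‖(y : V)‖ := rfl
                rw [this]
                have : 0 ≤ ‖(z : V)‖ / (2 * K) * (((m : ℝ) + 1) * h) ^ (d + 1) := by positivity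
                linarith
              · have h7 : n0 ≤ j * h := hh.trans (Nat.le_mul_of_pos_left h hj0)
                have h8 := hn0 (j * h) h7
                have h9 : ‖(TB ^ (j * h)) y‖ = ‖(T ^ (j * h)) (y : V)‖ := by rw [← hpow]; rfl
                rw [h9]
                refine h8.trans ?_
                have h10 : (((j * h : ℕ) : ℝ) + 1) ≤ ((m : ℝ) + 1) * h := by
                  push_cast
                  have : (j : ℝ) ≤ m := by exact_mod_cast hj
                  nlinarith
                have h11 : (((j * h : ℕ) : ℝ) + 1) ^ (d + 1) ≤ (((m : ℝ) + 1) * h) ^ (d + 1) :=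
                  pow_le_pow_left₀ (by positivity) h10 _
                have h12 := mul_le_mul_of_nonneg_left h11
                  (by positivity : 0 ≤ ‖(z : V)‖ / (2 * K))
                have h13 := norm_nonneg (y : V)
                linarith
          -- contradiction
          have hm1 : 1 ≤ m := by omega
          obtain ⟨h, hh⟩ := exists_nat_gt ((2 ^ (m + 1) * ‖(y : V)‖) / ‖(z : V)‖)
          set h' := max h (max n0 1) with hh'
          have e1 : n0 ≤ h' := (le_max_left _ _).trans (le_max_right _ _)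
          have e2 : 1 ≤ h' := (le_max_right _ _).trans (le_max_right _ _)
          have e3 : h ≤ h' := le_max_left _ _
          have h6 := h5 h' e1 e2
          rw [div_lt_iff₀ hzn] at hh
          have h7 : (h : ℝ) ≤ h' := by exact_mod_cast e3
          have h8 : (1 : ℝ) ≤ h' := by exact_mod_cast e2
          have h9 : (h' : ℝ) ≤ (h' : ℝ) ^ m := le_self_pow₀ h8 (by omega)
          have h10 : (h : ℝ) * ‖(z : V)‖ ≤ (h' : ℝ) ^ m * ‖(z : V)‖ :=
            mul_le_mul_of_nonneg_right (h7.trans h9) hzn.le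
          linarith
        obtain ⟨C, hC, h4⟩ := upper (T := TB) one_pos hμ1.le m y h1
        refine ⟨C, hC, fun n => (h4 n).trans ?_⟩
        simp only [one_pow, mul_one]
        apply mul_le_mul_of_nonneg_left _ hC
        exact pow_le_pow_right₀ (by
          have : (0 : ℝ) ≤ n := Nat.cast_nonneg _
          linarith) hmd
    · exact Big.zero
    · intro y z hy hz
      rw [Submodule.coe_add]
      exact hy.add hz
  exact key ⟨v, hv⟩

end Pool.Agent.Run7.h195.Mor
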