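import Mathlib
import Pool.Agent.Run7.h195.Mor2

set_option autoImplicit false

/-!
Sums over prefixes of fixed points of morphisms.
-/

namespace Pool.Agent.Run7.h195.Mor

open Filter Topology Finset

variable {A : Type*}

/-- the image of a word under the morphism `σ` -/
def img (σ : A → List A) (l : List A) : List A := l.flatMap σ

/-- the image of a word under the `n`-th power of the morphism `σ` -/
def it (σ : A → List A) (n : ℕ) (l : List A) : List A := (img σ)^[n] l

theorem it_zero (σ : A → List A) (l : List A) : it σ 0 l = l := rfl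

theorem it_succ (σ : A → List A) (n : ℕ) (l : List A) : it σ (n + 1) l = it σ n (img σ l) :=
  Function.iterate_succ_apply _ _ _

theorem it_succ' (σ : A → List A) (n : ℕ) (l : List A) : it σ (n + 1) l = img σ (it σ n l) :=
  Function.iterate_succ_apply' _ _ _

theorem it_add (σ : A → List A) (m n : ℕ) (l : List A) : it σ (m + n) l = it σ n (it σ m l) := by
  unfold it
  rw [add_comm, Function.iterate_add_apply]

theorem img_append (σ : A → List A) (l l' : List A) : img σ (l ++ l') = img σ l ++ img σ l' := by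
  unfold img
  rw [List.flatMap_append]

theorem it_append (σ : A → List A) (n : ℕ) : ∀ l l' : List A,
    it σ n (l ++ l') = it σ n l ++ it σ n l' := by
  induction n with
  | zero => intro l l'; rfl
  | succ n ih => intro l l'; rw [it_succ, it_succ, it_succ, img_append, ih]

theorem it_nil (σ : A → List A) (n : ℕ) : it σ n [] = [] := by
  induction n with
  | zero => rfl
  | succ n ih => rw [it_succ]; exact ih

theorem img_singleton (σ : A → List A) (a : A) : img σ [a] = σ a := by
  simp [img]

/-- the sum of the weights of the letters of a word -/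
def wt (g : A → ℂ) (l : List A) : ℂ := (l.map g).sum

theorem wt_append (g : A → ℂ) (l l' : List A) : wt g (l ++ l') = wt g l + wt g l' := by
  unfold wt; rw [List.map_append, List.sum_append]

theorem wt_cons (g : A → ℂ) (a : A) (l : List A) : wt g (a :: l) = g a + wt g l := by
  unfold wt; rw [List.map_cons, List.sum_cons]

theorem wt_nil (g : A → ℂ) : wt g [] = 0 := rfl

theorem wt_img (g : A → ℂ) (σ : A → List A) (l : List A) :
    wt g (img σ l) = wt (fun b => wt g (σ b)) l := by
  induction l with
  | nil => rfl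
  | cons a l ih =>
    rw [wt_cons, ← ih]
    have : a :: l = [a] ++ l := rfl
    rw [this, img_append, wt_append, img_singleton]

theorem wt_congr {g g' : A → ℂ} {l : List A} (h : ∀ b ∈ l, g b = g' b) : wt g l = wt g' l := by
  unfold wt
  rw [List.map_congr_left h]

open Classical in
/-- the operator of the morphism on the weights of the accessible letters -/
noncomputable def op (σ : A → List A) (acc : A → Prop) : Module.End ℂ (A → ℂ) where
  toFun g b := if acc b then wt g (σ b) else 0
  map_add' g g' := by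
    funext b
    simp only [Pi.add_apply]
    split_ifs
    · generalize σ b = l
      induction l with
      | nil => simp [wt_nil]
      | cons c l ih => rw [wt_cons, wt_cons, wt_cons, ih, Pi.add_apply]; ring
    · simp
  map_smul' c g := by
    funext b
    simp only [Pi.smul_apply, smul_eq_mul, RingHom.id_apply]
    split_ifs
    · generalize σ b = l
      induction l with
      | nil => simp [wt_nil]
      | cons d l ih => rw [wt_cons, wt_cons, ih, Pi.smul_apply, smul_eq_mul]; ring
    · simp

open Classical in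
theorem op_apply (σ : A → List A) (acc : A → Prop) (g : A → ℂ) (b : A) :
    op σ acc g b = if acc b then wt g (σ b) else 0 := rfl

theorem acc_it {σ : A → List A} {acc : A → Prop} (hacc : ∀ b, acc b → ∀ c ∈ σ b, acc c) (n : ℕ) :
    ∀ l : List A, (∀ c ∈ l, acc c) → ∀ c ∈ it σ n l, acc c := by
  induction n with
  | zero => intro l hl; exact hl
  | succ n ih =>
    intro l hl
    rw [it_succ]
    apply ih
    intro c hc
    unfold img at hc
    rw [List.mem_flatMap] at hc
    obtain ⟨b, hb, hcb⟩ := hc
    exact hacc b (hl b hb) c hcb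

theorem op_pow {σ : A → List A} {acc : A → Prop} (hacc : ∀ b, acc b → ∀ c ∈ σ b, acc c) (n : ℕ) :
    ∀ (g : A → ℂ) (l : List A), (∀ c ∈ l, acc c) → wt ((op σ acc ^ n) g) l = wt g (it σ n l) := by
  induction n with
  | zero => intro g l _; rw [pow_zero]; rfl
  | succ n ih =>
    intro g l hl
    rw [pow_succ, Module.End.mul_apply, ih _ l hl, it_succ', wt_img]
    apply wt_congr
    intro b hb
    rw [op_apply, if_pos (acc_it hacc n l hl b hb)]

theorem op_pow_apply {σ : A → List A} {acc : A → Prop} (hacc : ∀ b, acc b → ∀ c ∈ σ b, acc c)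
    (n : ℕ) (g : A → ℂ) {b : A} (hb : acc b) : (op σ acc ^ n) g b = wt g (it σ n [b]) := by
  rw [← op_pow hacc n g [b] (by simpa using hb)]
  simp [wt]

theorem op_pow_not {σ : A → List A} {acc : A → Prop} {g : A → ℂ} (hg : ∀ b, ¬ acc b → g b = 0)
    (n : ℕ) {b : A} (hb : ¬ acc b) : (op σ acc ^ n) g b = 0 := by
  rcases n with _ | n
  · rw [pow_zero]; exact hg b hb
  · rw [pow_succ', Module.End.mul_apply, op_apply, if_neg hb]

/-- `u` is the infinite word `σ^ω(a)` -/
def Gen (σ : A → List A) (a : A) (u : ℕ → A) : Prop :=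
  (∃ w, σ a = a :: w) ∧ ∀ n i, i < (it σ n [a]).length → (it σ n [a])[i]? = some (u i)

/-- the sum of the weights of the first `N` letters -/
def S (g : A → ℂ) (u : ℕ → A) (N : ℕ) : ℂ := ∑ i ∈ range N, g (u i)

theorem Gen.eq_map {σ : A → List A} {a : A} {u : ℕ → A} (h : Gen σ a u) (n : ℕ) :
    it σ n [a] = (List.range (it σ n [a]).length).map u := by
  apply List.ext_getElem?
  intro i
  by_cases hi : i < (it σ n [a]).length
  · rw [h.2 n i hi]
    simp [hi]
  · rw [List.getElem?_eq_none (by omega), List.getElem?_eq_none (by simpa using hi)]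

theorem sum_range_map (f : ℕ → ℂ) (N : ℕ) :
    ((List.range N).map f).sum = ∑ i ∈ range N, f i := by
  induction N with
  | zero => simp
  | succ N ih => rw [List.range_succ, List.map_append, List.sum_append, ih, sum_range_succ]; simp

theorem wt_take {σ : A → List A} {a : A} {u : ℕ → A} (h : Gen σ a u) (g : A → ℂ) (n N : ℕ)
    (hN : N ≤ (it σ n [a]).length) : wt g ((it σ n [a]).take N) = S g u N := by
  rw [h.eq_map n, ← List.map_take, List.take_range, min_eq_left hN]
  unfold wt S
  rw [List.map_map, sum_range_map]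
  rfl

theorem wt_full {σ : A → List A} {a : A} {u : ℕ → A} (h : Gen σ a u) (g : A → ℂ) (n : ℕ) :
    wt g (it σ n [a]) = S g u (it σ n [a]).length := by
  rw [← wt_take h g n _ le_rfl, List.take_length]

/-- the letter `b` occurs in some `σ^m(a)` -/
def Acc (σ : A → List A) (a b : A) : Prop := ∃ m, b ∈ it σ m [a]

theorem Acc.self (σ : A → List A) (a : A) : Acc σ a a := ⟨0, by simp [it_zero]⟩

theorem Acc.step {σ : A → List A} {a b : A} (h : Acc σ a b) : ∀ c ∈ σ b, Acc σ a c := by
  obtain ⟨m, hm⟩ := h
  intro c hc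
  refine ⟨m + 1, ?_⟩
  rw [it_succ']
  unfold img
  rw [List.mem_flatMap]
  exact ⟨b, hm, hc⟩

/-- the sum over a block is the difference of two sums over prefixes -/
theorem wt_block {σ : A → List A} {a : A} {u : ℕ → A} (h : Gen σ a u) (g : A → ℂ) {b : A} {m : ℕ}
    (hb : b ∈ it σ m [a]) (n : ℕ) : ∃ N M : ℕ, N ≤ (it σ (m + n) [a]).length ∧
      M ≤ (it σ (m + n) [a]).length ∧ wt g (it σ n [b]) = S g u N - S g u M := by
  obtain ⟨p, q, hpq⟩ := List.append_of_mem hb
  have h1 : it σ (m + n) [a] = it σ n p ++ (it σ n [b] ++ it σ n q) := by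
    rw [it_add, hpq, show p ++ b :: q = p ++ ([b] ++ q) from rfl, it_append, it_append]
  refine ⟨(it σ n p).length + (it σ n [b]).length, (it σ n p).length, ?_, ?_, ?_⟩
  · rw [h1, List.length_append, List.length_append]; omega
  · rw [h1, List.length_append]; omega
  · rw [← wt_take h g (m + n) _ (by rw [h1, List.length_append, List.length_append]; omega),
      ← wt_take h g (m + n) (it σ n p).length (by rw [h1, List.length_append]; omega)]
    have h2 : (it σ (m + n) [a]).take ((it σ n p).length + (it σ n [b]).length) =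
        it σ n p ++ it σ n [b] := by
      rw [h1, ← List.append_assoc, ← List.length_append, List.take_left]
    have h3 : (it σ (m + n) [a]).take (it σ n p).length = it σ n p := by
      rw [h1, List.take_left]
    rw [h2, h3, wt_append]
    ring

open Classical in
/-- the weights of the accessible letters -/
noncomputable def res (σ : A → List A) (a : A) (g : A → ℂ) : A → ℂ :=
  fun b => if Acc σ a b then g b else 0

theorem res_pow {σ : A → List A} {a : A} (g : A → ℂ) (n : ℕ) {b : A} (hb : Acc σ a b) :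
    (op σ (Acc σ a) ^ n) (res σ a g) b = wt g (it σ n [b]) := by
  rw [op_pow_apply (fun b hb => Acc.step hb) n _ hb]
  apply wt_congr
  intro c hc
  unfold res
  rw [if_pos]
  exact acc_it (fun b hb => Acc.step hb) n [b] (by simpa using hb) c hc

variable [Fintype A]

theorem small_of {σ : A → List A} {a : A} {u : ℕ → A} (h : Gen σ a u) (g : A → ℂ) {α : ℕ → ℝ}
    (hα : ∀ n, 0 < α n) (hinf : Tendsto α atTop atTop)
    (hsh : ∀ m, ∃ K : ℝ, 0 < K ∧ ∀ n, α (m + n) ≤ K * α n)
    (hl : ∃ C : ℝ, 0 < C ∧ ∀ n, ((it σ n [a]).length : ℝ) ≤ C * α n)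
    (hS : ∀ ε : ℝ, 0 < ε → ∀ᶠ N : ℕ in atTop, ‖S g u N‖ ≤ ε * N) :
    Small (op σ (Acc σ a)) α (res σ a g) := by
  obtain ⟨C, hC, hl⟩ := hl
  -- a bound for all `N`
  have hS' : ∀ ε : ℝ, 0 < ε → ∃ D : ℝ, 0 ≤ D ∧ ∀ N : ℕ, ‖S g u N‖ ≤ ε * N + D := by
    intro ε hε
    obtain ⟨N0, hN0⟩ := (hS ε hε).exists_forall_of_atTop
    refine ⟨∑ N ∈ range N0, ‖S g u N‖, sum_nonneg fun _ _ => norm_nonneg _, fun N => ?_⟩
    have hs : 0 ≤ ∑ N ∈ range N0, ‖S g u N‖ := sum_nonneg fun _ _ => norm_nonneg _
    by_cases hN : N0 ≤ N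
    · have := hN0 N hN
      linarith
    · have h1 : ‖S g u N‖ ≤ ∑ N ∈ range N0, ‖S g u N‖ :=
        single_le_sum (f := fun N => ‖S g u N‖) (fun _ _ => norm_nonneg _)
          (mem_range.2 (by omega))
      have : 0 ≤ ε * N := by positivity
      linarith
  have key : ∀ b : A, ∀ ε : ℝ, 0 < ε → ∀ᶠ n : ℕ in atTop,
      ‖(op σ (Acc σ a) ^ n) (res σ a g) b‖ ≤ ε * α n := by
    intro b ε hε
    by_cases hb : Acc σ a b
    · obtain ⟨m, hm⟩ := hb
      obtain ⟨K, hK, hsh⟩ := hsh m
      obtain ⟨D, hD, hS2⟩ := hS' (ε / (4 * C * K)) (by positivity)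
      filter_upwards [hinf.eventually (eventually_ge_atTop (4 * D / ε))] with n hn
      rw [res_pow g n ⟨m, hm⟩]
      obtain ⟨N, M, h1, h2, h3⟩ := wt_block h g hm n
      rw [h3]
      have hlen : ((it σ (m + n) [a]).length : ℝ) ≤ C * (K * α n) :=
        (hl _).trans (mul_le_mul_of_nonneg_left (hsh n) hC.le)
      have hb1 : ∀ N : ℕ, N ≤ (it σ (m + n) [a]).length → ‖S g u N‖ ≤ ε / 2 * α n := by
        intro N hN
        have hNR : (N : ℝ) ≤ C * (K * α n) := le_trans (by exact_mod_cast hN) hlen
        have h4 := hS2 N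
        have h5 : ε / (4 * C * K) * N ≤ ε / (4 * C * K) * (C * (K * α n)) :=
          mul_le_mul_of_nonneg_left hNR (by positivity)
        have h6 : ε / (4 * C * K) * (C * (K * α n)) = ε / 4 * α n := by field_simp
        rw [div_le_iff₀ hε] at hn
        linarith
      calc ‖S g u N - S g u M‖ ≤ ‖S g u N‖ + ‖S g u M‖ := norm_sub_le _ _
        _ ≤ ε / 2 * α n + ε / 2 * α n := add_le_add (hb1 N h1) (hb1 M h2)
        _ = ε * α n := by ring
    · refine Eventually.of_forall fun n => ?_
      rw [op_pow_not (g := res σ a g) (fun b hb => if_neg hb) n hb, norm_zero]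
      exact mul_nonneg hε.le (hα n).le
  intro ε hε
  have h1 : ∀ᶠ n : ℕ in atTop, ∀ b : A, ‖(op σ (Acc σ a) ^ n) (res σ a g) b‖ ≤ ε * α n :=
    eventually_all.2 fun b => key b ε hε
  filter_upwards [h1] with n hn
  rw [pi_norm_le_iff_of_nonneg (mul_nonneg hε.le (hα n).le)]
  exact hn

theorem exists_bound (g : A → ℂ) : ∃ G : ℝ, 0 ≤ G ∧ ∀ b, ‖g b‖ ≤ G :=
  ⟨‖g‖, norm_nonneg _, fun b => norm_le_pi_norm g b⟩

theorem exists_len (σ : A → List A) : ∃ L : ℕ, ∀ b, (σ b).length ≤ L :=
  ⟨univ.sup fun b => (σ b).length, fun b => le_sup (f := fun b => (σ b).length) (mem_univ b)⟩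

/-- the partial sums inside the blocks -/
theorem partial_exp {σ : A → List A} {a : A} {g : A → ℂ} {ρ : ℝ} (hρ : 1 < ρ)
    (hB : Big (op σ (Acc σ a)) (fun n => ρ ^ n) (res σ a g)) :
    ∃ K : ℝ, 0 ≤ K ∧ ∀ n N : ℕ, ‖wt g ((it σ n [a]).take N)‖ ≤ K * ρ ^ n := by
  obtain ⟨C, hC, hB⟩ := hB
  obtain ⟨G, hG, hg⟩ := exists_bound g
  obtain ⟨L, hL⟩ := exists_len σ
  have hblock : ∀ n b, Acc σ a b → ‖wt g (it σ n [b])‖ ≤ C * ρ ^ n := by
    intro n b hb
    rw [← res_pow g n hb]
    exact (norm_le_pi_norm _ b).trans (hB n)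
  have hlist : ∀ (n : ℕ) (R : ℝ), (∀ b, Acc σ a b → ∀ N, ‖wt g ((it σ n [b]).take N)‖ ≤ R) →
      0 ≤ R → ∀ l : List A, (∀ c ∈ l, Acc σ a c) → ∀ N,
        ‖wt g ((it σ n l).take N)‖ ≤ l.length * (C * ρ ^ n) + R := by
    intro n R hR hR0 l
    induction l with
    | nil => intro _ N; rw [it_nil, List.take_nil, wt_nil, norm_zero]; simpa using hR0
    | cons b l ih =>
      intro hl N
      have hρn : 0 ≤ C * ρ ^ n := by positivity
      rw [show b :: l = [b] ++ l from rfl, it_append, List.take_append, wt_append]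
      have hlen : (([b] ++ l).length : ℝ) = l.length + 1 := by simp
      rw [hlen]
      by_cases hN : N ≤ (it σ n [b]).length
      · rw [Nat.sub_eq_zero_of_le hN, List.take_zero, wt_nil, add_zero]
        have h1 := hR b (hl b (by simp)) N
        have : 0 ≤ ((l.length : ℝ) + 1) * (C * ρ ^ n) := by positivity
        linarith
      · rw [List.take_of_length_le (by omega)]
        have h1 := hblock n b (hl b (by simp))
        have h2 := ih (fun c hc => hl c (by simp [hc])) (N - (it σ n [b]).length)
        refine (norm_add_le _ _).trans ?_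
        linarith
  refine ⟨G + L * C / (ρ - 1), by have : 0 < ρ - 1 := by linarith
                                  positivity, ?_⟩
  set K := G + L * C / (ρ - 1) with hK
  have hρ1 : 0 < ρ - 1 := by linarith
  have hK0 : 0 ≤ K := by rw [hK]; positivity
  have hKG : G ≤ K := by
    rw [hK]
    have : 0 ≤ L * C / (ρ - 1) := by positivity
    linarith
  have hK1 : L * C ≤ K * (ρ - 1) := by
    rw [hK, add_mul, div_mul_cancel₀ _ hρ1.ne']
    have : 0 ≤ G * (ρ - 1) := by positivity
    linarith
  have main : ∀ n b, Acc σ a b → ∀ N, ‖wt g ((it σ n [b]).take N)‖ ≤ K * ρ ^ n := by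
    intro n
    induction n with
    | zero =>
      intro b _ N
      rw [it_zero, pow_zero, mul_one]
      rcases N with _ | N
      · rw [List.take_zero, wt_nil, norm_zero]; exact hK0
      · rw [List.take_succ_cons, List.take_nil, wt_cons, wt_nil, add_zero]
        exact (hg b).trans hKG
    | succ n ih =>
      intro b hb N
      rw [it_succ, img_singleton]
      have h1 := hlist n (K * ρ ^ n) ih (by positivity) (σ b) (fun c hc => hb.step c hc) N
      refine h1.trans ?_
      have h2 : ((σ b).length : ℝ) ≤ L := by exact_mod_cast hL b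
      have h3 : ((σ b).length : ℝ) * (C * ρ ^ n) ≤ L * (C * ρ ^ n) :=
        mul_le_mul_of_nonneg_right h2 (by positivity)
      have h4 : L * (C * ρ ^ n) ≤ K * (ρ - 1) * ρ ^ n := by
        rw [← mul_assoc]
        exact mul_le_mul_of_nonneg_right hK1 (by positivity)
      calc _ ≤ K * (ρ - 1) * ρ ^ n + K * ρ ^ n := by linarith
        _ = K * ρ ^ (n + 1) := by rw [pow_succ]; ring
  exact fun n N => main n a (Acc.self σ a) N

end Pool.Agent.Run7.h195.Mor
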