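import Mathlib
import Pool.Agent.Run7.h195.Mor3

set_option autoImplicit false

/-!
Power savings for the sums over prefixes of fixed points of morphisms.
-/

namespace Pool.Agent.Run7.h195.Mor

open Filter Topology Finset

variable {A : Type*} [Fintype A]

/-- the length of `σ^n(a)` -/
def len (σ : A → List A) (a : A) (n : ℕ) : ℕ := (it σ n [a]).length

omit [Fintype A] in
theorem len_zero (σ : A → List A) (a : A) : len σ a 0 = 1 := rfl

/-- purely exponential growth -/
def ExpGrowth (σ : A → List A) (a : A) : Prop :=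
  ∃ θ c C : ℝ, 1 < θ ∧ 0 < c ∧ ∀ n : ℕ, c * θ ^ n ≤ len σ a n ∧ (len σ a n : ℝ) ≤ C * θ ^ n

/-- polynomial growth -/
def PolyGrowth (σ : A → List A) (a : A) : Prop :=
  ∃ (d : ℕ) (c C : ℝ), 1 ≤ d ∧ 0 < c ∧
    ∀ n : ℕ, c * ((n : ℝ) + 1) ^ d ≤ len σ a n ∧ (len σ a n : ℝ) ≤ C * ((n : ℝ) + 1) ^ d

omit [Fintype A] in
/-- every `N ≥ 2` lies between two successive lengths -/
theorem exists_level {σ : A → List A} {a : A}
    (hinf : Tendsto (fun n => (len σ a n : ℝ)) atTop atTop) {N : ℕ} (hN : 2 ≤ N) :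
    ∃ n : ℕ, len σ a n < N ∧ N ≤ len σ a (n + 1) := by
  classical
  have hex : ∃ n, N ≤ len σ a n := by
    obtain ⟨n, hn⟩ := (hinf.eventually (eventually_ge_atTop (N : ℝ))).exists
    exact ⟨n, by exact_mod_cast hn⟩
  have h0 : Nat.find hex ≠ 0 := by
    intro h0
    have := Nat.find_spec hex
    rw [h0, len_zero] at this
    omega
  obtain ⟨n, hn⟩ := Nat.exists_eq_succ_of_ne_zero h0
  refine ⟨n, ?_, ?_⟩
  · have := Nat.find_min hex (m := n) (by omega)
    omega
  · have := Nat.find_spec hex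
    rwa [hn] at this

theorem saving_exp {σ : A → List A} {a : A} {u : ℕ → A} (h : Gen σ a u) (g : A → ℂ)
    (hgr : ExpGrowth σ a) (hS : ∀ ε : ℝ, 0 < ε → ∀ᶠ N : ℕ in atTop, ‖S g u N‖ ≤ ε * N) :
    ∃ γ K : ℝ, 0 ≤ γ ∧ γ < 1 ∧ 0 ≤ K ∧ ∀ N : ℕ, 1 ≤ N → ‖S g u N‖ ≤ K * (N : ℝ) ^ γ := by
  obtain ⟨θ, c, C, hθ, hc, hlen⟩ := hgr
  have hθ0 : 0 < θ := by linarith
  have hC : 0 < C := by
    have h1 := (hlen 0).1.trans (hlen 0).2
    rw [pow_zero, mul_one, mul_one] at h1
    linarith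
  have hinfθ : Tendsto (fun n : ℕ => θ ^ n) atTop atTop := tendsto_pow_atTop_atTop_of_one_lt hθ
  have hsm := small_of h g (α := fun n => θ ^ n) (fun n => by positivity) hinfθ
    (fun m => ⟨θ ^ m, by positivity, fun n => by rw [pow_add]⟩) ⟨C, hC, fun n => (hlen n).2⟩ hS
  obtain ⟨ρ, hρ, hρθ, hB⟩ := quant_exp hθ hsm
  obtain ⟨K, hK, hpart⟩ := partial_exp hρ hB
  have hinf : Tendsto (fun n => (len σ a n : ℝ)) atTop atTop :=
    tendsto_atTop_mono (fun n => (hlen n).1) (hinfθ.const_mul_atTop hc)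
  have hlθ : 0 < Real.log θ := Real.log_pos hθ
  have hlρ : 0 < Real.log ρ := Real.log_pos hρ
  set γ := Real.log ρ / Real.log θ with hγ
  have hγ0 : 0 < γ := div_pos hlρ hlθ
  have hγ1 : γ < 1 := (div_lt_one hlθ).2 (Real.log_lt_log (by linarith) hρθ)
  have hρeq : ∀ n : ℕ, ρ ^ n = (θ ^ n) ^ γ := by
    intro n
    have h1 : ρ = θ ^ γ := by
      rw [Real.rpow_def_of_pos hθ0, hγ, mul_div_cancel₀ _ hlθ.ne', Real.exp_log (by linarith)]
    calc ρ ^ n = (θ ^ γ) ^ n := by rw [← h1]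
      _ = (θ ^ n) ^ γ := by
        rw [← Real.rpow_natCast, ← Real.rpow_natCast, ← Real.rpow_mul hθ0.le, ← Real.rpow_mul hθ0.le,
          mul_comm]
  refine ⟨γ, K * ρ * (1 / c) ^ γ + K, hγ0.le, hγ1, by positivity, fun N hN => ?_⟩
  have hNR : (1 : ℝ) ≤ N := by exact_mod_cast hN
  have hNγ : 1 ≤ (N : ℝ) ^ γ := Real.one_le_rpow hNR hγ0.le
  rcases Nat.lt_or_ge N 2 with hN2 | hN2
  · have hN1 : N = 1 := by omega
    subst hN1
    have h1 := hpart 0 1
    rw [wt_take h g 0 1 (by simp [it_zero]), pow_zero, mul_one] at h1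
    refine h1.trans ?_
    have h2 : 0 ≤ K * ρ * (1 / c) ^ γ := by positivity
    calc K ≤ (K * ρ * (1 / c) ^ γ + K) * 1 := by linarith
      _ ≤ _ := mul_le_mul_of_nonneg_left hNγ (by positivity)
  · obtain ⟨n, hn1, hn2⟩ := exists_level hinf hN2
    have h1 := hpart (n + 1) N
    rw [wt_take h g (n + 1) N hn2] at h1
    have h2 : θ ^ n ≤ 1 / c * N := by
      rw [div_mul_eq_mul_div, one_mul, le_div_iff₀ hc, mul_comm]
      have h3 : (len σ a n : ℝ) ≤ N := by exact_mod_cast hn1.le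
      exact (hlen n).1.trans h3
    have h3 : ρ ^ n ≤ (1 / c) ^ γ * (N : ℝ) ^ γ := by
      rw [hρeq, ← Real.mul_rpow (by positivity) (by positivity)]
      exact Real.rpow_le_rpow (by positivity) h2 hγ0.le
    calc ‖S g u N‖ ≤ K * ρ ^ (n + 1) := h1
      _ = K * ρ * ρ ^ n := by rw [pow_succ]; ring
      _ ≤ K * ρ * ((1 / c) ^ γ * (N : ℝ) ^ γ) := mul_le_mul_of_nonneg_left h3 (by positivity)
      _ ≤ (K * ρ * (1 / c) ^ γ + K) * (N : ℝ) ^ γ := by
        have : 0 ≤ K * (N : ℝ) ^ γ := by positivity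
        nlinarith

omit [Fintype A] in
theorem length_img {σ : A → List A} (hne : ∀ b, σ b ≠ []) (l : List A) :
    l.length ≤ (img σ l).length := by
  induction l with
  | nil => simp [img]
  | cons b l ih =>
    rw [show b :: l = [b] ++ l from rfl, img_append, img_singleton, List.length_append,
      List.length_append]
    have : 0 < (σ b).length := List.length_pos_iff.2 (hne b)
    simp only [List.length_singleton]
    omega

omit [Fintype A] in
theorem length_it_mono {σ : A → List A} (hne : ∀ b, σ b ≠ []) (l : List A) :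
    Monotone fun n => (it σ n l).length := by
  apply monotone_nat_of_le_succ
  intro n
  show (it σ n l).length ≤ (it σ (n + 1) l).length
  rw [it_succ']
  exact length_img hne _

theorem saving_poly {σ : A → List A} (hne : ∀ b, σ b ≠ []) {a : A} {u : ℕ → A} (h : Gen σ a u)
    (g : A → ℂ) (hgr : PolyGrowth σ a)
    (hS : ∀ ε : ℝ, 0 < ε → ∀ᶠ N : ℕ in atTop, ‖S g u N‖ ≤ ε * N) :
    ∃ γ K : ℝ, 0 ≤ γ ∧ γ < 1 ∧ 0 ≤ K ∧ ∀ N : ℕ, 1 ≤ N → ‖S g u N‖ ≤ K * (N : ℝ) ^ γ := by
  obtain ⟨d', c, C, hd1, hc, hlen⟩ := hgr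
  obtain ⟨d, rfl⟩ : ∃ d, d' = d + 1 := ⟨d' - 1, by omega⟩
  have hC : 0 < C := by
    have h1 := (hlen 0).1.trans (hlen 0).2
    simp only [Nat.cast_zero, zero_add, one_pow, mul_one] at h1
    linarith
  have hinfα : Tendsto (fun n : ℕ => ((n : ℝ) + 1) ^ (d + 1)) atTop atTop :=
    (tendsto_pow_atTop (by omega)).comp
      (tendsto_atTop_add_const_right _ _ tendsto_natCast_atTop_atTop)
  have hsm := small_of h g (α := fun n => ((n : ℝ) + 1) ^ (d + 1)) (fun n => by positivity) hinfα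
    (fun m => ⟨((m : ℝ) + 1) ^ (d + 1), by positivity, fun n => by
      rw [← mul_pow]
      apply pow_le_pow_left₀ (by positivity)
      push_cast
      have : 0 ≤ (m : ℝ) * n := by positivity
      nlinarith⟩) ⟨C, hC, fun n => (hlen n).2⟩ hS
  obtain ⟨C', hC', hB⟩ := quant_poly hsm
  obtain ⟨G, hG, hg⟩ := exists_bound g
  have hinf : Tendsto (fun n => (len σ a n : ℝ)) atTop atTop :=
    tendsto_atTop_mono (fun n => (hlen n).1) (hinfα.const_mul_atTop hc)
  -- the increments of the length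
  obtain ⟨w, hw⟩ := h.1
  have hinc : ∀ n, len σ a (n + 1) = len σ a n + (it σ n w).length := by
    intro n
    unfold len
    rw [it_succ, img_singleton, hw, show a :: w = [a] ++ w from rfl, it_append, List.length_append]
  have hmono := length_it_mono hne w
  have hsum : ∀ n k, k * (it σ n w).length ≤ len σ a (n + k) := by
    intro n k
    induction k with
    | zero => omega
    | succ k ih =>
      rw [← add_assoc, hinc, Nat.succ_mul]
      have : (it σ n w).length ≤ (it σ (n + k) w).length := hmono (by omega)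
      omega
  have hincb : ∀ n : ℕ, ((it σ n w).length : ℝ) ≤ C * 2 ^ (d + 1) * ((n : ℝ) + 1) ^ d := by
    intro n
    have h1 := hsum n (n + 1)
    have h2 : (((n + 1 : ℕ) : ℝ)) * (it σ n w).length ≤ len σ a (n + (n + 1)) := by exact_mod_cast h1
    have h3 := (hlen (n + (n + 1))).2
    push_cast at h2 h3
    have hn : (0 : ℝ) < (n : ℝ) + 1 := by positivity
    have h4 : ((n : ℝ) + 1) * (it σ n w).length ≤ ((n : ℝ) + 1) * (C * 2 ^ (d + 1) * ((n : ℝ) + 1) ^ d) := by
      refine h2.trans (h3.trans (le_of_eq ?_))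
      have : ((n : ℝ) + (n + 1) + 1) = 2 * (n + 1) := by ring
      rw [this, mul_pow]; ring
    exact le_of_mul_le_mul_left h4 hn
  set γ : ℝ := (d : ℝ) / (d + 1) with hγ
  have hγ0 : 0 ≤ γ := by positivity
  have hγ1 : γ < 1 := by
    rw [hγ, div_lt_one (by positivity)]
    linarith
  set K := (C' + G * (C * 2 ^ (d + 1))) * ((1 / c) ^ γ) + G with hK
  have hK0 : 0 ≤ K := by positivity
  refine ⟨γ, K, hγ0, hγ1, hK0, fun N hN => ?_⟩
  have hNR : (1 : ℝ) ≤ N := by exact_mod_cast hN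
  have hNγ : 1 ≤ (N : ℝ) ^ γ := Real.one_le_rpow hNR hγ0
  rcases Nat.lt_or_ge N 2 with hN2 | hN2
  · have hN1 : N = 1 := by omega
    subst hN1
    have h1 : ‖S g u 1‖ ≤ G := by
      unfold S
      rw [sum_range_one]
      exact hg _
    refine h1.trans ?_
    calc G ≤ K * 1 := by
          have : 0 ≤ (C' + G * (C * 2 ^ (d + 1))) * ((1 / c) ^ γ) := by positivity
          rw [hK]; linarith
      _ ≤ _ := mul_le_mul_of_nonneg_left hNγ hK0
  · obtain ⟨n, hn1, hn2⟩ := exists_level hinf hN2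
    have h1 : ‖S g u (len σ a n)‖ ≤ C' * ((n : ℝ) + 1) ^ d := by
      have h2 := wt_full h g n
      have h3 := res_pow g n (Acc.self σ a)
      change ‖S g u (it σ n [a]).length‖ ≤ _
      rw [← h2, ← h3]
      exact (norm_le_pi_norm _ a).trans (hB n)
    have h2 : ‖S g u N - S g u (len σ a n)‖ ≤ G * (it σ n w).length := by
      have h3 : S g u N - S g u (len σ a n) = ∑ i ∈ Ico (len σ a n) N, g (u i) := by
        unfold S
        rw [Finset.sum_Ico_eq_sub _ hn1.le]
      rw [h3]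
      refine (norm_sum_le _ _).trans ((sum_le_sum fun i _ => hg (u i)).trans ?_)
      rw [sum_const, Nat.card_Ico, nsmul_eq_mul, mul_comm]
      apply mul_le_mul_of_nonneg_left _ hG
      have := hinc n
      have h4 : N - len σ a n ≤ (it σ n w).length := by omega
      exact_mod_cast h4
    have h3 : ((n : ℝ) + 1) ^ (d + 1) ≤ 1 / c * N := by
      rw [div_mul_eq_mul_div, one_mul, le_div_iff₀ hc, mul_comm]
      have h3 : (len σ a n : ℝ) ≤ N := by exact_mod_cast hn1.le
      exact (hlen n).1.trans h3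
    have h4 : ((n : ℝ) + 1) ^ d ≤ (1 / c) ^ γ * (N : ℝ) ^ γ := by
      have h5 : ((n : ℝ) + 1) ^ d = (((n : ℝ) + 1) ^ (d + 1)) ^ γ := by
        rw [← Real.rpow_natCast, ← Real.rpow_natCast, ← Real.rpow_mul (by positivity), hγ]
        congr 1
        push_cast
        field_simp
      rw [h5, ← Real.mul_rpow (by positivity) (by positivity)]
      exact Real.rpow_le_rpow (by positivity) h3 hγ0
    have h5 : ‖S g u N‖ ≤ ‖S g u (len σ a n)‖ + ‖S g u N - S g u (len σ a n)‖ := by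
      have := norm_add_le (S g u (len σ a n)) (S g u N - S g u (len σ a n))
      rwa [add_sub_cancel] at this
    have h6 : G * (it σ n w).length ≤ G * (C * 2 ^ (d + 1) * ((n : ℝ) + 1) ^ d) :=
      mul_le_mul_of_nonneg_left (hincb n) hG
    calc ‖S g u N‖ ≤ C' * ((n : ℝ) + 1) ^ d + G * (C * 2 ^ (d + 1) * ((n : ℝ) + 1) ^ d) := by linarith
      _ = (C' + G * (C * 2 ^ (d + 1))) * ((n : ℝ) + 1) ^ d := by ring
      _ ≤ (C' + G * (C * 2 ^ (d + 1))) * ((1 / c) ^ γ * (N : ℝ) ^ γ) :=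
        mul_le_mul_of_nonneg_left h4 (by positivity)
      _ ≤ K * (N : ℝ) ^ γ := by
        rw [hK]
        have : 0 ≤ G * (N : ℝ) ^ γ := by positivity
        nlinarith

end Pool.Agent.Run7.h195.Mor
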