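import Mathlib

set_option autoImplicit false

/-!
Sets invariant under doubling: the odd elements which are far from all even elements.
-/

namespace Pool.Agent.Run7.h195.Iso

open Filter Topology Finset

/-- `n` is odd, has the property `u`, and no even `m ≥ 1` with `|m - n| ≤ w n` has it. -/
def Lone (w : ℕ → ℝ) (u : ℕ → Prop) (n : ℕ) : Prop :=
  n % 2 = 1 ∧ u n ∧ ∀ m : ℕ, 1 ≤ m → m % 2 = 0 → |(m : ℝ) - n| ≤ w n → ¬ u m

variable {u : ℕ → Prop} {w : ℕ → ℝ}

/-- an element which is not lone has an even neighbour -/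
theorem exists_even (w0 : ∀ n, 0 ≤ w n) {n : ℕ} (hn1 : 1 ≤ n) (hn : u n) (hL : ¬ Lone w u n) :
    ∃ m : ℕ, 1 ≤ m ∧ |(2 * m : ℝ) - n| ≤ w n ∧ u (2 * m) := by
  by_cases h : n % 2 = 1
  · unfold Lone at hL
    push Not at hL
    obtain ⟨m, h1, h2, h3, h4⟩ := hL h hn
    refine ⟨m / 2, by omega, ?_, ?_⟩
    · have : (m : ℝ) = 2 * ((m / 2 : ℕ) : ℝ) := by
        have : m = 2 * (m / 2) := by omega
        exact_mod_cast this
      rw [← this]; exact h3
    · rw [show 2 * (m / 2) = m by omega]; exact h4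
  · refine ⟨n / 2, by omega, ?_, ?_⟩
    · have : (n : ℝ) = 2 * ((n / 2 : ℕ) : ℝ) := by
        have : n = 2 * (n / 2) := by omega
        exact_mod_cast this
      rw [← this, sub_self, abs_zero]; exact w0 n
    · rw [show 2 * (n / 2) = n by omega]; exact hn

/-- The chain of halvings. -/
theorem chain (h2 : ∀ m : ℕ, 1 ≤ m → (u (2 * m) ↔ u m)) (w0 : ∀ n, 0 ≤ w n)
    (wm : Monotone w) {n1 x : ℕ} (hn1 : 1 ≤ n1)
    (hw1 : ∀ n, n1 ≤ n → 100 * w n ≤ n) (hw2 : ∀ n, n1 ≤ n → w (3 * n) ≤ 3 / 2 * w n)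
    (hx : 2 * n1 ≤ x) {j n : ℕ} (hn : u n) (hnl : 2 ^ j * x ≤ n) :
    ∀ k ≤ j, (∃ i, k < i ∧ i ≤ j ∧ ∃ m, Lone w u m ∧ n1 ≤ m ∧
        |(n : ℝ) - 2 ^ (j - i) * m| ≤ 2 ^ (j - i) * (3 * w m)) ∨
      ∃ m, u m ∧ n1 ≤ m ∧ |(n : ℝ) - 2 ^ (j - k) * m| ≤ 2 ^ (j - k) * (3 * w m) := by
  intro k hk
  induction hd : j - k generalizing k with
  | zero =>
    right
    have hkj : k = j := by omega
    subst hkj
    refine ⟨n, hn, ?_, ?_⟩
    · have : 1 ≤ 2 ^ k := Nat.one_le_two_pow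
      nlinarith
    · simp only [pow_zero, one_mul, sub_self, abs_zero]
      have := w0 n
      linarith
  | succ d ih =>
    rcases ih (k + 1) (by omega) (by omega) with ⟨i, h1, h3, h4⟩ | ⟨m, hm1, hm2, hm3⟩
    · exact Or.inl ⟨i, by omega, h3, h4⟩
    · by_cases hL : Lone w u m
      · exact Or.inl ⟨k + 1, by omega, by omega, m, hL, hm2, by
          rw [show j - (k + 1) = d by omega]; exact hm3⟩
      · right
        obtain ⟨m', hm'1, hm'2, hm'3⟩ := exists_even w0 (by omega) hm1 hL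
        have hu' : u m' := (h2 m' hm'1).1 hm'3
        have hwm := hw1 m hm2
        have hmR : (1 : ℝ) ≤ m := by exact_mod_cast (by omega : 1 ≤ m)
        have hpow : (0 : ℝ) < 2 ^ d := by positivity
        -- size of m
        have hsize : (2 : ℝ) ^ (k + 1) * x ≤ 1.03 * m := by
          have h5 := (abs_le.1 hm3).2
          have h6 : (2 : ℝ) ^ j * x ≤ n := by exact_mod_cast hnl
          have h7 : (2 : ℝ) ^ j = 2 ^ d * 2 ^ (k + 1) := by
            rw [← pow_add]; congr 1; omega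
          rw [h7] at h6
          have h8 : (2 : ℝ) ^ d * (2 ^ (k + 1) * x) ≤ 2 ^ d * (1.03 * m) := by
            nlinarith
          exact le_of_mul_le_mul_left h8 hpow
        obtain ⟨h5, h6⟩ := abs_le.1 hm'2
        have hk1 : (2 : ℝ) ≤ 2 ^ (k + 1) := by
          rw [pow_succ]
          have : (1 : ℝ) ≤ 2 ^ k := one_le_pow₀ (by norm_num)
          linarith
        have hxR : (2 : ℝ) * n1 ≤ x := by exact_mod_cast hx
        have hn1R : (1 : ℝ) ≤ n1 := by exact_mod_cast hn1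
        have hm'n1 : n1 ≤ m' := by
          have h7 : (n1 : ℝ) ≤ m' := by
            have h8 : (2 : ℝ) * x ≤ 2 ^ (k + 1) * x :=
              mul_le_mul_of_nonneg_right hk1 (by linarith)
            linarith
          exact_mod_cast h7
        have h3m : m ≤ 3 * m' := by
          have h7 : (m : ℝ) ≤ 3 * m' := by linarith
          exact_mod_cast h7
        have hwm' : w m ≤ 3 / 2 * w m' := (wm h3m).trans (hw2 m' hm'n1)
        refine ⟨m', hu', hm'n1, ?_⟩
        have h9 : (n : ℝ) - 2 ^ (d + 1) * m' = ((n : ℝ) - 2 ^ d * m) - 2 ^ d * (2 * m' - m) := by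
          rw [pow_succ]; ring
        rw [h9]
        have hm'2' : |(2 : ℝ) ^ d * (2 * m' - m)| ≤ 2 ^ d * w m := by
          rw [abs_mul, abs_of_pos hpow]
          exact mul_le_mul_of_nonneg_left hm'2 hpow.le
        calc |((n : ℝ) - 2 ^ d * m) - 2 ^ d * (2 * m' - m)|
            ≤ |(n : ℝ) - 2 ^ d * m| + |(2 : ℝ) ^ d * (2 * m' - m)| := abs_sub _ _
          _ ≤ 2 ^ d * (3 * w m) + 2 ^ d * w m := add_le_add hm3 hm'2'
          _ = 2 ^ d * (4 * w m) := by ring
          _ ≤ 2 ^ d * (4 * (3 / 2 * w m')) := by gcongr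
          _ = 2 ^ (d + 1) * (3 * w m') := by rw [pow_succ]; ring

end Pool.Agent.Run7.h195.Iso
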