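import Mathlib
import Pool.Agent.Run7.h195.Iso

set_option autoImplicit false

namespace Pool.Agent.Run7.h195.Iso

open Filter Topology Finset

variable {u : ℕ → Prop} {w : ℕ → ℝ}

/-- Above a cell without elements the elements come from lone elements. -/
theorem stop (h2 : ∀ m : ℕ, 1 ≤ m → (u (2 * m) ↔ u m)) (w0 : ∀ n, 0 ≤ w n)
    (wm : Monotone w) {n1 x : ℕ} (hn1 : 1 ≤ n1)
    (hw1 : ∀ n, n1 ≤ n → 100 * w n ≤ n) (hw2 : ∀ n, n1 ≤ n → w (3 * n) ≤ 3 / 2 * w n)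
    (hx : 2 * n1 ≤ x) {j n z : ℕ} (hz1 : x ≤ z) (hz2 : z < 2 * x)
    (hz : ∀ y : ℕ, |(y : ℝ) - z| ≤ 3 * w (4 * x) + 1 → ¬ u y)
    (hn : u n) (hnl : 2 ^ j * z < n) (hnu : n ≤ 2 ^ j * (z + 1)) :
    ∃ i, 1 ≤ i ∧ i ≤ j ∧ ∃ m, Lone w u m ∧
      |(n : ℝ) - 2 ^ (j - i) * m| ≤ 2 ^ (j - i) * (3 * w m) ∧ 2 ^ i * x ≤ 2 * m ∧
      m ≤ 3 * (2 ^ i * x) := by
  have hp : 0 < 2 ^ j := by positivity
  have hnl' : 2 ^ j * x ≤ n := by
    have := Nat.mul_le_mul_left (2 ^ j) hz1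
    omega
  have hx1 : (1 : ℝ) ≤ x := by
    have : 1 ≤ x := by omega
    exact_mod_cast this
  have hnlR : (2 : ℝ) ^ j * z < n := by exact_mod_cast hnl
  have hnlR' : (2 : ℝ) ^ j * x ≤ n := by exact_mod_cast hnl'
  have hnuR : (n : ℝ) ≤ 2 ^ j * (z + 1) := by exact_mod_cast hnu
  have hz2R : (z : ℝ) + 1 ≤ 2 * x := by exact_mod_cast hz2
  have key : ∀ i ≤ j, ∀ m : ℕ, n1 ≤ m →
      |(n : ℝ) - 2 ^ (j - i) * m| ≤ 2 ^ (j - i) * (3 * w m) →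
      (2 : ℝ) ^ i * x ≤ 1.03 * m ∧ (m : ℝ) ≤ 3 * (2 ^ i * x) := by
    intro i hi m hm h
    have hw := hw1 m hm
    have hpi : (0 : ℝ) < 2 ^ (j - i) := by positivity
    have hj : (2 : ℝ) ^ j = 2 ^ (j - i) * 2 ^ i := by
      rw [← pow_add]; congr 1; omega
    obtain ⟨h3, h4⟩ := abs_le.1 h
    have hmR : (0 : ℝ) ≤ m := Nat.cast_nonneg _
    rw [hj] at hnlR' hnuR
    constructor
    · have h8 : (2 : ℝ) ^ (j - i) * (2 ^ i * x) ≤ 2 ^ (j - i) * (1.03 * m) := by nlinarith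
      exact le_of_mul_le_mul_left h8 hpi
    · have h9 : (2 : ℝ) ^ (j - i) * 2 ^ i * (z + 1) ≤ 2 ^ (j - i) * 2 ^ i * (2 * x) :=
        mul_le_mul_of_nonneg_left hz2R (by positivity)
      have h8 : (2 : ℝ) ^ (j - i) * (0.97 * m) ≤ 2 ^ (j - i) * (2 ^ i * (2 * x)) := by nlinarith
      have h10 := le_of_mul_le_mul_left h8 hpi
      have h11 : (0 : ℝ) ≤ 2 ^ i * x := by positivity
      nlinarith
  rcases chain h2 w0 wm hn1 hw1 hw2 hx hn hnl' 0 (Nat.zero_le _) with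
    ⟨i, h1, h3, m, h4, h5, h6⟩ | ⟨m, h1, h3, h4⟩
  · obtain ⟨h7, h8⟩ := key i h3 m h5 h6
    refine ⟨i, h1, h3, m, h4, h6, ?_, ?_⟩
    · have : (2 : ℝ) ^ i * x ≤ 2 * m := by
        have : (0 : ℝ) ≤ m := Nat.cast_nonneg _
        linarith
      exact_mod_cast this
    · exact_mod_cast h8
  · exfalso
    obtain ⟨h7, h8⟩ := key 0 (Nat.zero_le _) m h3 h4
    have h9 : m ≤ 4 * x := by
      have : (m : ℝ) ≤ 4 * x := by
        rw [pow_zero, one_mul] at h8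
        linarith
      exact_mod_cast this
    have h10 := wm h9
    refine hz m ?_ h1
    rw [Nat.sub_zero] at h4
    have hpR : (0 : ℝ) < 2 ^ j := by positivity
    obtain ⟨h5, h6⟩ := abs_le.1 h4
    rw [abs_le]
    constructor
    · have h11 : (2 : ℝ) ^ j * (z - m) ≤ 2 ^ j * (3 * w m) := by nlinarith
      have h12 := le_of_mul_le_mul_left h11 hpR
      linarith
    · have h11 : (2 : ℝ) ^ j * (m - (z + 1)) ≤ 2 ^ j * (3 * w m) := by nlinarith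
      have h12 := le_of_mul_le_mul_left h11 hpR
      linarith

/-- the integers of a real interval -/
noncomputable def ball (c r : ℝ) : Finset ℕ := Finset.Icc ⌈c - r⌉₊ ⌊c + r⌋₊

theorem mem_ball {c r : ℝ} {n : ℕ} (h : |(n : ℝ) - c| ≤ r) : n ∈ ball c r := by
  obtain ⟨h1, h2⟩ := abs_le.1 h
  unfold ball
  rw [Finset.mem_Icc]
  exact ⟨Nat.ceil_le.2 (by linarith), Nat.le_floor (by linarith)⟩

theorem card_ball {c r : ℝ} (hc : 0 ≤ c) (hr : 0 ≤ r) : ((ball c r).card : ℝ) ≤ 2 * r + 1 := by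
  unfold ball
  rw [Nat.card_Icc]
  have h1 : ((⌊c + r⌋₊ : ℕ) : ℝ) ≤ c + r := Nat.floor_le (by linarith)
  rcases le_or_gt ⌈c - r⌉₊ (⌊c + r⌋₊ + 1) with h | h
  · rw [Nat.cast_sub h]
    push_cast
    rcases le_or_gt 0 (c - r) with h2 | h2
    · have := Nat.le_ceil (c - r)
      linarith
    · have : (0 : ℝ) ≤ (⌈c - r⌉₊ : ℕ) := Nat.cast_nonneg _
      linarith
  · rw [Nat.sub_eq_zero_of_le h.le]
    push_cast
    linarith

theorem card_levels {x : ℕ} (hx : 1 ≤ x) (j m : ℕ) :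
    ((Finset.Icc 1 j).filter fun i => 2 ^ i * x ≤ 2 * m ∧ m ≤ 3 * (2 ^ i * x)).card ≤ 3 := by
  set B := (Finset.Icc 1 j).filter fun i => 2 ^ i * x ≤ 2 * m ∧ m ≤ 3 * (2 ^ i * x) with hB
  rcases B.eq_empty_or_nonempty with h | h
  · rw [h]; simp
  · set i0 := B.min' h with hi0
    have h0 : i0 ∈ B := B.min'_mem h
    have hsub : B ⊆ Finset.Icc i0 (i0 + 2) := by
      intro i hi
      have h1 : i0 ≤ i := B.min'_le i hi
      rw [hB, Finset.mem_filter] at hi h0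
      rw [Finset.mem_Icc]
      refine ⟨h1, ?_⟩
      by_contra hcon
      rw [not_le] at hcon
      have h3 : 2 ^ (i0 + 3) ≤ 2 ^ i := Nat.pow_le_pow_right (by norm_num) (by omega)
      have h4 : 2 ^ (i0 + 3) * x ≤ 2 ^ i * x := Nat.mul_le_mul_right x h3
      have h5 : 2 ^ (i0 + 3) * x = 8 * (2 ^ i0 * x) := by ring
      have h6 : 0 < 2 ^ i0 * x := by positivity
      omega
    calc B.card ≤ (Finset.Icc i0 (i0 + 2)).card := Finset.card_le_card hsub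
      _ = 3 := by rw [Nat.card_Icc]; omega

open Classical in
theorem count_le (h2 : ∀ m : ℕ, 1 ≤ m → (u (2 * m) ↔ u m)) (w0 : ∀ n, 0 ≤ w n)
    (wm : Monotone w) {n1 x : ℕ} (hn1 : 1 ≤ n1)
    (hw1 : ∀ n, n1 ≤ n → 100 * w n ≤ n) (hw2 : ∀ n, n1 ≤ n → w (3 * n) ≤ 3 / 2 * w n)
    (hx : 2 * n1 ≤ x) (j : ℕ) {A : Finset ℕ} (hA : ∀ z ∈ A, x ≤ z ∧ z < 2 * x ∧
      ∀ y : ℕ, |(y : ℝ) - z| ≤ 3 * w (4 * x) + 1 → ¬ u y) :
    (((A.biUnion fun z => Finset.Ioc (2 ^ j * z) (2 ^ j * (z + 1))).filter u).card : ℝ) ≤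
      54 * (2 ^ j * x) * ∑ m ∈ (Finset.Icc x (3 * (2 ^ j * x))).filter (Lone w u),
        (w m + 1) / m := by
  set F := (Finset.Icc x (3 * (2 ^ j * x))).filter (Lone w u) with hF
  have hx1 : 1 ≤ x := by omega
  have hsub : (A.biUnion fun z => Finset.Ioc (2 ^ j * z) (2 ^ j * (z + 1))).filter u ⊆
      (Finset.Icc 1 j).biUnion fun i =>
        (F.filter fun m => 2 ^ i * x ≤ 2 * m ∧ m ≤ 3 * (2 ^ i * x)).biUnion fun m =>
          ball (2 ^ (j - i) * m) (2 ^ (j - i) * (3 * w m)) := by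
    intro n hn
    rw [Finset.mem_filter, Finset.mem_biUnion] at hn
    obtain ⟨⟨z, hz, hnz⟩, hun⟩ := hn
    rw [Finset.mem_Ioc] at hnz
    obtain ⟨hz1, hz2, hz3⟩ := hA z hz
    obtain ⟨i, h1, h3, m, h4, h5, h6, h7⟩ := stop h2 w0 wm hn1 hw1 hw2 hx hz1 hz2 hz3 hun hnz.1 hnz.2
    rw [Finset.mem_biUnion]
    refine ⟨i, Finset.mem_Icc.2 ⟨h1, h3⟩, ?_⟩
    rw [Finset.mem_biUnion]
    refine ⟨m, ?_, mem_ball h5⟩
    rw [Finset.mem_filter, hF, Finset.mem_filter, Finset.mem_Icc]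
    refine ⟨⟨⟨?_, ?_⟩, h4⟩, h6, h7⟩
    · have h8 : 2 ^ 1 ≤ 2 ^ i := Nat.pow_le_pow_right (by norm_num) h1
      have h9 : 2 ^ 1 * x ≤ 2 ^ i * x := Nat.mul_le_mul_right x h8
      omega
    · have h8 : 2 ^ i ≤ 2 ^ j := Nat.pow_le_pow_right (by norm_num) h3
      have h9 : 2 ^ i * x ≤ 2 ^ j * x := Nat.mul_le_mul_right x h8
      omega
  have h1 : (((A.biUnion fun z => Finset.Ioc (2 ^ j * z) (2 ^ j * (z + 1))).filter u).card : ℝ) ≤
      ∑ i ∈ Finset.Icc 1 j, ∑ m ∈ F.filter fun m => 2 ^ i * x ≤ 2 * m ∧ m ≤ 3 * (2 ^ i * x),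
        ((ball (2 ^ (j - i) * m) (2 ^ (j - i) * (3 * w m))).card : ℝ) := by
    have h3 := (Finset.card_le_card hsub).trans Finset.card_biUnion_le
    have h4 : (∑ i ∈ Finset.Icc 1 j, ((F.filter fun m => 2 ^ i * x ≤ 2 * m ∧
        m ≤ 3 * (2 ^ i * x)).biUnion fun m =>
          ball (2 ^ (j - i) * m) (2 ^ (j - i) * (3 * w m))).card) ≤
        ∑ i ∈ Finset.Icc 1 j, ∑ m ∈ F.filter fun m => 2 ^ i * x ≤ 2 * m ∧ m ≤ 3 * (2 ^ i * x),
          (ball (2 ^ (j - i) * m) (2 ^ (j - i) * (3 * w m))).card :=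
      Finset.sum_le_sum fun i _ => Finset.card_biUnion_le
    exact_mod_cast h3.trans h4
  have hx0 : (0 : ℝ) < x := by exact_mod_cast hx1
  have hg : ∀ m, 0 ≤ (w m + 1) / (m : ℝ) := fun m => by have := w0 m; positivity
  have h3 : ∀ i ∈ Finset.Icc 1 j, ∀ m ∈ F.filter fun m => 2 ^ i * x ≤ 2 * m ∧ m ≤ 3 * (2 ^ i * x),
      ((ball (2 ^ (j - i) * m) (2 ^ (j - i) * (3 * w m))).card : ℝ) ≤
        18 * (2 ^ j * x) * ((w m + 1) / m) := by
    intro i hi m hm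
    rw [Finset.mem_Icc] at hi
    rw [Finset.mem_filter, hF, Finset.mem_filter, Finset.mem_Icc] at hm
    have hm0 : (0 : ℝ) < m := by
      have : 0 < m := by omega
      exact_mod_cast this
    have hwm := w0 m
    have hp1 : (1 : ℝ) ≤ 2 ^ (j - i) := one_le_pow₀ (by norm_num)
    refine (card_ball (by positivity) (by positivity)).trans ?_
    have h4 : (m : ℝ) ≤ 3 * (2 ^ i * x) := by exact_mod_cast hm.2.2
    have h5 : (2 : ℝ) ^ j = 2 ^ (j - i) * 2 ^ i := by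
      rw [← pow_add]; congr 1; omega
    have h6 : 2 * (2 ^ (j - i) * (3 * w m)) + 1 ≤ 6 * 2 ^ (j - i) * (w m + 1) := by nlinarith
    refine h6.trans ?_
    have h7 : (2 : ℝ) ^ (j - i) ≤ 3 * (2 ^ j * x) / m := by
      rw [le_div_iff₀ hm0, h5]
      have := mul_le_mul_of_nonneg_left h4 (by positivity : (0 : ℝ) ≤ 2 ^ (j - i))
      nlinarith
    calc 6 * 2 ^ (j - i) * (w m + 1) ≤ 6 * (3 * (2 ^ j * x) / m) * (w m + 1) := by gcongr
      _ = 18 * (2 ^ j * x) * ((w m + 1) / m) := by ring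
  refine h1.trans ((Finset.sum_le_sum fun i hi => Finset.sum_le_sum (h3 i hi)).trans ?_)
  have h4 : ∀ i, ∑ m ∈ F.filter fun m => 2 ^ i * x ≤ 2 * m ∧ m ≤ 3 * (2 ^ i * x),
      18 * (2 ^ j * x) * ((w m + 1) / m) = ∑ m ∈ F,
        if 2 ^ i * x ≤ 2 * m ∧ m ≤ 3 * (2 ^ i * x) then 18 * (2 ^ j * x) * ((w m + 1) / m) else 0 :=
    fun i => Finset.sum_filter _ _
  simp only [h4]
  rw [Finset.sum_comm, Finset.mul_sum]
  refine Finset.sum_le_sum fun m _ => ?_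
  rw [← Finset.sum_filter, Finset.sum_const, nsmul_eq_mul]
  have h5 : (((Finset.Icc 1 j).filter fun i => 2 ^ i * x ≤ 2 * m ∧
      m ≤ 3 * (2 ^ i * x)).card : ℝ) ≤ 3 := by exact_mod_cast card_levels hx1 j m
  calc _ ≤ 3 * (18 * (2 ^ j * x) * ((w m + 1) / m)) :=
        mul_le_mul_of_nonneg_right h5 (by have := hg m; positivity)
    _ = 54 * (2 ^ j * x) * ((w m + 1) / m) := by ring

end Pool.Agent.Run7.h195.Iso
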