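import Mathlib
import Pool.Agent.Run7.h195.Iso2

set_option autoImplicit false

namespace Pool.Agent.Run7.h195.Iso

open Filter Topology Finset

variable {u : ℕ → Prop} {w : ℕ → ℝ}

open Classical in
/-- the number of `n ≤ N` with the property `u` -/
noncomputable def C (u : ℕ → Prop) (N : ℕ) : ℕ := ((Finset.Icc 1 N).filter u).card

open Classical in
theorem C_eq (N : ℕ) : ({n : ℕ | 1 ≤ n ∧ n ≤ N ∧ u n}.ncard : ℕ) = C u N := by
  unfold C
  rw [← Set.ncard_coe_finset]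
  congr 1
  ext n
  simp only [coe_filter, mem_Icc, Set.mem_ofPred_eq]
  tauto

open Classical in
theorem card_Ioc_filter {a b : ℕ} (h : a ≤ b) :
    ((Finset.Ioc a b).filter u).card + C u a = C u b := by
  unfold C
  rw [← Finset.card_union_of_disjoint]
  · congr 1
    ext n
    simp only [mem_union, mem_filter, mem_Ioc, mem_Icc]
    constructor
    · rintro (⟨⟨h1, h2⟩, h3⟩ | ⟨⟨h1, h2⟩, h3⟩)
      · exact ⟨⟨by omega, h2⟩, h3⟩
      · exact ⟨⟨h1, by omega⟩, h3⟩
    · rintro ⟨⟨h1, h2⟩, h3⟩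
      by_cases h4 : a < n
      · exact Or.inl ⟨⟨h4, h2⟩, h3⟩
      · exact Or.inr ⟨⟨h1, by omega⟩, h3⟩
  · rw [Finset.disjoint_left]
    intro n hn hn'
    simp only [mem_filter, mem_Ioc, mem_Icc] at hn hn'
    omega

open Classical in
theorem tendsto_cell {δ : ℝ} (hd : Tendsto (fun N : ℕ => (C u N : ℝ) / N) atTop (𝓝 δ)) {z : ℕ}
    (hz : 1 ≤ z) :
    Tendsto (fun j : ℕ => (((Finset.Ioc (2 ^ j * z) (2 ^ j * (z + 1))).filter u).card : ℝ) / 2 ^ j)
      atTop (𝓝 δ) := by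
  have key : ∀ y : ℕ, 1 ≤ y →
      Tendsto (fun j : ℕ => (C u (2 ^ j * y) : ℝ) / 2 ^ j) atTop (𝓝 (y * δ)) := by
    intro y hy
    have hyR : (0 : ℝ) < y := by exact_mod_cast hy
    have h1 : Tendsto (fun j : ℕ => 2 ^ j * y) atTop atTop := by
      refine tendsto_atTop_mono (f := fun j : ℕ => j) (fun j => ?_) tendsto_id
      have h3 : j < 2 ^ j := Nat.lt_two_pow_self
      have h4 : 2 ^ j * 1 ≤ 2 ^ j * y := Nat.mul_le_mul_left _ hy
      show j ≤ 2 ^ j * y
      omega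
    have h2 := (hd.comp h1).const_mul (y : ℝ)
    refine h2.congr fun j => ?_
    simp only [Function.comp]
    push_cast
    have : (0 : ℝ) < 2 ^ j := by positivity
    field_simp
  have h1 := (key (z + 1) (by omega)).sub (key z hz)
  have h2 : ((z + 1 : ℕ) : ℝ) * δ - z * δ = δ := by push_cast; ring
  rw [h2] at h1
  refine h1.congr fun j => ?_
  have h3 : 2 ^ j * z ≤ 2 ^ j * (z + 1) := Nat.mul_le_mul_left _ (by omega)
  have h4 := card_Ioc_filter (u := u) h3
  rw [← sub_div]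
  congr 1
  rw [← h4]
  push_cast
  ring

open Classical in
/-- The main theorem on sets invariant under doubling. -/
theorem core (h2 : ∀ m : ℕ, 1 ≤ m → (u (2 * m) ↔ u m)) (w0 : ∀ n, 0 ≤ w n)
    (wm : Monotone w) (hw1 : ∀ᶠ n : ℕ in atTop, 100 * w n ≤ n)
    (hw2 : ∀ᶠ n : ℕ in atTop, w (3 * n) ≤ 3 / 2 * w n) {δ : ℝ} (hδ : 0 < δ)
    (hd : Tendsto (fun N : ℕ => (C u N : ℝ) / N) atTop (𝓝 δ)) {c : ℝ} (hc : 0 < c)
    (hA : ∀ᶠ x : ℕ in atTop, c * x ≤ (((Finset.Ico x (2 * x)).filter fun z : ℕ =>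
      ∀ y : ℕ, |(y : ℝ) - z| ≤ 3 * w (4 * x) + 1 → ¬ u y).card : ℝ)) :
    ¬ Summable (fun n : {n : ℕ | Lone w u n} => (w n + 1) / ((n : ℕ) : ℝ)) := by
  intro hsum
  have hsum' : Summable (Set.indicator {n : ℕ | Lone w u n} fun n => (w n + 1) / (n : ℝ)) :=
    summable_subtype_iff_indicator.1 hsum
  rw [summable_iff_vanishing_norm] at hsum'
  obtain ⟨s, hs⟩ := hsum' (c * δ / 108) (by positivity)
  obtain ⟨n1, hn1⟩ := (hw1.and hw2).exists_forall_of_atTop
  obtain ⟨x1, hx1⟩ := hA.exists_forall_of_atTop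
  set n2 := max n1 1 with hn2
  set x := 2 * n2 + x1 + (s.sup id + 1) with hx
  have hx0 : 1 ≤ x := by omega
  have hxR : (0 : ℝ) < x := by exact_mod_cast hx0
  have hA' := hx1 x (by omega)
  set A := (Finset.Ico x (2 * x)).filter fun z : ℕ =>
      ∀ y : ℕ, |(y : ℝ) - z| ≤ 3 * w (4 * x) + 1 → ¬ u y with hAdef
  have hAmem : ∀ z ∈ A, x ≤ z ∧ z < 2 * x ∧
      ∀ y : ℕ, |(y : ℝ) - z| ≤ 3 * w (4 * x) + 1 → ¬ u y := by
    intro z hz
    rw [hAdef, Finset.mem_filter, Finset.mem_Ico] at hz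
    exact ⟨hz.1.1, hz.1.2, hz.2⟩
  have hcount : ∀ j : ℕ, ∑ z ∈ A, (((Finset.Ioc (2 ^ j * z) (2 ^ j * (z + 1))).filter u).card : ℝ) /
      2 ^ j ≤ 54 * x * (c * δ / 108) := by
    intro j
    have h3 := count_le h2 w0 wm (n1 := n2) (x := x) (by omega)
      (fun n hn => (hn1 n (le_trans (le_max_left _ _) hn)).1)
      (fun n hn => (hn1 n (le_trans (le_max_left _ _) hn)).2) (by omega) j hAmem
    set F := (Finset.Icc x (3 * (2 ^ j * x))).filter (Lone w u) with hF
    have hdisj : Disjoint F s := by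
      rw [Finset.disjoint_left]
      intro m hm hm'
      rw [hF, Finset.mem_filter, Finset.mem_Icc] at hm
      have h4 : m ≤ s.sup id := Finset.le_sup (f := id) hm'
      omega
    have h4 := hs F hdisj
    have h5 : ∑ m ∈ F, Set.indicator {n : ℕ | Lone w u n} (fun n => (w n + 1) / (n : ℝ)) m =
        ∑ m ∈ F, (w m + 1) / (m : ℝ) := by
      refine Finset.sum_congr rfl fun m hm => ?_
      rw [hF, Finset.mem_filter] at hm
      rw [Set.indicator_of_mem]
      exact hm.2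
    rw [h5] at h4
    have h6 : ∑ m ∈ F, (w m + 1) / (m : ℝ) ≤ c * δ / 108 :=
      (le_abs_self _).trans (by rw [← Real.norm_eq_abs]; exact h4.le)
    have h7 : (((A.biUnion fun z => Finset.Ioc (2 ^ j * z) (2 ^ j * (z + 1))).filter u).card : ℝ) =
        ∑ z ∈ A, (((Finset.Ioc (2 ^ j * z) (2 ^ j * (z + 1))).filter u).card : ℝ) := by
      rw [Finset.filter_biUnion, Finset.card_biUnion]
      · push_cast; rfl
      · intro z _ z' _ hne
        rw [Function.onFun, Finset.disjoint_left]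
        intro n hn hn'
        rw [Finset.mem_filter, Finset.mem_Ioc] at hn hn'
        have hp : 0 < 2 ^ j := by positivity
        rcases lt_or_gt_of_ne hne with h | h
        · have := Nat.mul_le_mul_left (2 ^ j) (show z + 1 ≤ z' by omega)
          omega
        · have := Nat.mul_le_mul_left (2 ^ j) (show z' + 1 ≤ z by omega)
          omega
    rw [← Finset.sum_div, ← h7, div_le_iff₀ (by positivity)]
    refine h3.trans ?_
    have h8 : (0 : ℝ) ≤ 54 * (2 ^ j * x) := by positivity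
    calc _ ≤ 54 * (2 ^ j * x) * (c * δ / 108) := mul_le_mul_of_nonneg_left h6 h8
      _ = 54 * x * (c * δ / 108) * 2 ^ j := by ring
  have hlim : Tendsto (fun j : ℕ => ∑ z ∈ A,
      (((Finset.Ioc (2 ^ j * z) (2 ^ j * (z + 1))).filter u).card : ℝ) / 2 ^ j) atTop
      (𝓝 (∑ _z ∈ A, δ)) :=
    tendsto_finsetSum _ fun z hz => tendsto_cell hd (by have := (hAmem z hz).1; omega)
  have h9 := le_of_tendsto' hlim hcount
  rw [Finset.sum_const, nsmul_eq_mul] at h9
  have h10 : c * x * δ ≤ (A.card : ℝ) * δ := mul_le_mul_of_nonneg_right hA' hδ.le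
  have h11 : 0 < c * x * δ := by positivity
  nlinarith

end Pool.Agent.Run7.h195.Iso
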