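import Mathlib
import Pool.Agent.Run7.h195.Iso3
import Pool.Agent.W38.CRh
import Pool.Agent.H499R2.NDCor

set_option autoImplicit false

namespace Pool.Agent.Run7.h195.Iso

open Filter Topology Finset

open Pool.Agent.W38.CR (Merged GG)

open Pool.Agent.H499R2.ND (Tn nat_density)

open Pool.Agent.H499R2.CO (Tz HD)

theorem Tn_cast (t n : ℕ) : (Tz 1)^[t] (n : ℤ) = ((Tn^[t] n : ℕ) : ℤ) := by
  induction t generalizing n with
  | zero => rfl
  | succ t ih =>
    rw [Function.iterate_succ_apply, Function.iterate_succ_apply, ← ih]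
    congr 1
    unfold Tz Tn
    rcases Nat.mod_two_eq_zero_or_one n with h | h
    · rw [if_pos (by omega), if_pos h]; omega
    · rw [if_neg (by omega), if_neg (by omega)]; omega

theorem Tn_pos {n : ℕ} (hn : 1 ≤ n) : 1 ≤ Tn n := by
  unfold Tn
  rcases Nat.mod_two_eq_zero_or_one n with h | h
  · rw [if_pos h]; omega
  · rw [if_neg (by omega)]; omega

theorem inv_iter {P : ℕ → Prop} (hP : ∀ n : ℕ, 1 ≤ n → (P n ↔ P (Tn n))) (t : ℕ) :
    ∀ n, 1 ≤ n → (P n ↔ P (Tn^[t] n)) := by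
  induction t with
  | zero => intro n _; rfl
  | succ t ih =>
    intro n hn
    rw [Function.iterate_succ_apply, hP n hn]
    exact ih _ (Tn_pos hn)

/-- On a merged run an invariant property is constant. -/
theorem merged_iff {P : ℕ → Prop} (hP : ∀ n : ℕ, 1 ≤ n → (P n ↔ P (Tn n))) {n : ℕ} (hn : 1 ≤ n)
    (hM : Merged n) {a b : ℕ} (ha : n ≤ a) (ha' : ((a - n : ℕ) : ℝ) ≤ GG n) (hb : n ≤ b)
    (hb' : ((b - n : ℕ) : ℝ) ≤ GG n) : P a ↔ P b := by
  obtain ⟨t, _, ht⟩ := hM
  have key : ∀ c : ℕ, n ≤ c → ((c - n : ℕ) : ℝ) ≤ GG n → (P c ↔ P (Tn^[t] n)) := by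
    intro c hc hc'
    have h1 := ht (c - n) hc'
    have h2 : ((n : ℤ) + ((c - n : ℕ) : ℤ)) = (c : ℤ) := by
      rw [Nat.cast_sub hc]; ring
    rw [h2, Tn_cast, Tn_cast] at h1
    have h3 : Tn^[t] c = Tn^[t] n := by exact_mod_cast h1
    rw [inv_iter hP t c (hn.trans hc), h3]
  rw [key a ha ha', key b hb hb']

open Classical in
theorem C_not_add {P Q : ℕ → Prop} (h : ∀ n, Q n ↔ ¬ P n) (N : ℕ) : C P N + C Q N = N := by
  have h1 : C Q N = ((Finset.Icc 1 N).filter fun n => ¬ P n).card := by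
    unfold C
    congr 1
    ext n
    simp only [mem_filter, h]
  rw [h1]
  unfold C
  rw [card_filter_add_card_filter_not]
  simp

open Classical in
/-- A positive proportion of the integers are in the middle of long runs with the property. -/
theorem windows {Q : ℕ → Prop} (hQ : ∀ n : ℕ, 1 ≤ n → (Q n ↔ Q (Tn n)))
    (hex : ∃ n, 1 ≤ n ∧ Q n) {H : ℕ → ℝ} (hH0 : ∀ x, 0 ≤ H x)
    (hH : ∀ᶠ x : ℕ in atTop, ∀ y : ℕ, x ≤ 2 * y → 2 * (H x + 1) ≤ GG y)
    (hH1 : ∀ᶠ x : ℕ in atTop, 2 * (H x + 1) ≤ x) :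
    ∃ c : ℝ, 0 < c ∧ ∀ᶠ x : ℕ in atTop, c * x ≤ (((Finset.Ico x (2 * x)).filter fun z : ℕ =>
      ∀ y : ℕ, |(y : ℝ) - z| ≤ H x → Q y).card : ℝ) := by
  obtain ⟨l, _, _, hl, hl2, _⟩ := nat_density (P := Q) hQ
  have hl0 : 0 < l := hl2.2 hex
  obtain ⟨NM, hNM⟩ : ∃ NM : ℕ → Prop, ∀ n, NM n ↔ ¬ Merged n := ⟨_, fun _ => Iff.rfl⟩
  have hC : Tendsto (fun N : ℕ => (C Q N : ℝ) / N) atTop (𝓝 l) := by
    refine hl.congr fun N => ?_
    rw [C_eq]
  have hM : Tendsto (fun N : ℕ => (C Merged N : ℝ) / N) atTop (𝓝 1) := by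
    refine Pool.Agent.W38.CR.fwd.congr fun N => ?_
    rw [C_eq]
  refine ⟨l / 4, by positivity, ?_⟩
  have e1 : ∀ᶠ N : ℕ in atTop, |(C Q N : ℝ) / N - l| < l / 16 := by
    have h1 : Tendsto (fun N : ℕ => |(C Q N : ℝ) / N - l|) atTop (𝓝 0) := by
      have := (hC.sub_const l).abs
      simpa using this
    exact (tendsto_order.1 h1).2 (l / 16) (by positivity)
  have e2 : ∀ᶠ N : ℕ in atTop, 1 - l / 8 < (C Merged N : ℝ) / N :=
    (tendsto_order.1 hM).1 _ (by linarith)
  obtain ⟨N1, hN1⟩ := e1.exists_forall_of_atTop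
  obtain ⟨N2, hN2⟩ := e2.exists_forall_of_atTop
  filter_upwards [hH, hH1, eventually_ge_atTop (N1 + N2 + 2), eventually_ge_atTop ⌈16 / l⌉₊] with
    x h1 h2 h3 h3'
  have hx0 : (2 : ℝ) ≤ x := by
    have : 2 ≤ x := by omega
    exact_mod_cast this
  have hx16 : 16 / l ≤ x := (Nat.le_ceil _).trans (by exact_mod_cast h3')
  have hlx : 16 ≤ l * x := by
    rw [div_le_iff₀ hl0] at hx16
    linarith
  set h := ⌈H x⌉₊ with hh
  have hh1 : H x ≤ h := Nat.le_ceil _
  have hh2 : (h : ℝ) < H x + 1 := Nat.ceil_lt_add_one (hH0 x)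
  have hhx : 2 * h < x := by
    have : (2 : ℝ) * h < x := by linarith
    exact_mod_cast this
  -- the number of z with the property
  have a1 : (l * x - l / 4 * x) ≤ (((Finset.Ico x (2 * x)).filter Q).card : ℝ) := by
    have b1 := hN1 (2 * x - 1) (by omega)
    have b2 := hN1 (x - 1) (by omega)
    have c1 : ((2 * x - 1 : ℕ) : ℝ) = 2 * x - 1 := by
      rw [Nat.cast_sub (by omega)]; push_cast; ring
    have c2 : ((x - 1 : ℕ) : ℝ) = x - 1 := by
      rw [Nat.cast_sub (by omega)]; push_cast; ring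
    rw [c1, abs_lt] at b1
    rw [c2, abs_lt] at b2
    have p1 : (0 : ℝ) < 2 * x - 1 := by linarith
    have p2 : (0 : ℝ) < x - 1 := by linarith
    have b3 : (l - l / 16) * (2 * x - 1) < (C Q (2 * x - 1) : ℝ) := by
      have := b1.1
      rw [← lt_div_iff₀ p1]; linarith
    have b4 : (C Q (x - 1) : ℝ) < (l + l / 16) * (x - 1) := by
      have := b2.2
      rw [← div_lt_iff₀ p2]; linarith
    have b5 := card_Ioc_filter (u := Q) (show x - 1 ≤ 2 * x - 1 by omega)
    have b6 : (Finset.Ioc (x - 1) (2 * x - 1)).filter Q = (Finset.Ico x (2 * x)).filter Q := by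
      congr 1
      ext n
      simp only [Finset.mem_Ioc, Finset.mem_Ico]
      omega
    rw [b6] at b5
    have b7 : (((Finset.Ico x (2 * x)).filter Q).card : ℝ) + C Q (x - 1) = C Q (2 * x - 1) := by
      exact_mod_cast b5
    nlinarith
  -- the number of those without a run
  have a2 : (((Finset.Ico x (2 * x)).filter fun z => NM (z - h)).card : ℝ) ≤ l / 4 * x := by
    have b1 := hN2 (2 * x) (by omega)
    have b2 : (((Finset.Ico x (2 * x)).filter fun z => NM (z - h)).card) ≤ C NM (2 * x) := by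
      unfold C
      refine Finset.card_le_card_of_injOn (fun z => z - h) ?_ ?_
      · intro z hz
        rw [Finset.mem_coe, Finset.mem_filter, Finset.mem_Ico] at hz
        rw [Finset.mem_coe, Finset.mem_filter, Finset.mem_Icc]
        exact ⟨⟨show 1 ≤ z - h by omega, show z - h ≤ 2 * x by omega⟩, hz.2⟩
      · intro z hz z' hz' heq
        rw [Finset.mem_coe, Finset.mem_filter, Finset.mem_Ico] at hz hz'
        simp only at heq
        omega
    have b3 := C_not_add hNM (2 * x)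
    have b4 : (C Merged (2 * x) : ℝ) + C NM (2 * x) = 2 * x := by
      exact_mod_cast b3
    have c1 : ((2 * x : ℕ) : ℝ) = 2 * x := by push_cast; ring
    rw [c1, lt_div_iff₀ (by linarith)] at b1
    have b5 : (((Finset.Ico x (2 * x)).filter fun z => NM (z - h)).card : ℝ) ≤
        C NM (2 * x) := by exact_mod_cast b2
    nlinarith
  have a3 : ((Finset.Ico x (2 * x)).filter Q) ⊆
      ((Finset.Ico x (2 * x)).filter fun z : ℕ => ∀ y : ℕ, |(y : ℝ) - z| ≤ H x → Q y) ∪
        (Finset.Ico x (2 * x)).filter fun z => NM (z - h) := by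
    intro z hz
    rw [Finset.mem_filter] at hz
    rw [Finset.mem_union, Finset.mem_filter, Finset.mem_filter]
    by_cases hm : Merged (z - h)
    · left
      refine ⟨hz.1, fun y hy => ?_⟩
      have hzx := Finset.mem_Ico.1 hz.1
      have hR := h1 (z - h) (by omega)
      have hzR : ((z - h : ℕ) : ℝ) = z - h := Nat.cast_sub (by omega)
      obtain ⟨y1, y2⟩ := abs_le.1 hy
      have hy3 : z - h ≤ y := by
        have : (z : ℝ) ≤ y + h := by linarith
        have : z ≤ y + h := by exact_mod_cast this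
        omega
      refine (merged_iff hQ (n := z - h) (by omega) hm (Nat.sub_le _ _) ?_ hy3 ?_).1 hz.2
      · rw [Nat.cast_sub (Nat.sub_le _ _), hzR]
        linarith
      · rw [Nat.cast_sub hy3, hzR]
        linarith
    · exact Or.inr ⟨hz.1, (hNM _).2 hm⟩
  have a4 := (Finset.card_le_card a3).trans (Finset.card_union_le _ _)
  have a5 : (((Finset.Ico x (2 * x)).filter Q).card : ℝ) ≤
      ((Finset.Ico x (2 * x)).filter fun z : ℕ => ∀ y : ℕ, |(y : ℝ) - z| ≤ H x → Q y).card +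
        ((Finset.Ico x (2 * x)).filter fun z => NM (z - h)).card := by exact_mod_cast a4
  nlinarith

end Pool.Agent.Run7.h195.Iso
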