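import Mathlib
import Pool.Agent.Run7.h195.Iso4

set_option autoImplicit false

namespace Pool.Agent.Run7.h195.Iso

open Filter Topology Finset

open Pool.Agent.W38.CR (GG)

open Pool.Agent.H499R2.ND (Tn nat_density)

/-- `exp ((log n) ^ θ)` -/
noncomputable def ww (θ : ℝ) (n : ℕ) : ℝ := Real.exp (Real.log n ^ θ)

theorem one_le_ww (θ : ℝ) (n : ℕ) : 1 ≤ ww θ n :=
  Real.one_le_exp (Real.rpow_nonneg (Real.log_natCast_nonneg n) θ)

theorem ww_mono {θ : ℝ} (hθ : 0 < θ) : Monotone (ww θ) := by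
  intro m n h
  unfold ww
  apply Real.exp_le_exp.2
  apply Real.rpow_le_rpow (Real.log_natCast_nonneg m) _ hθ.le
  rcases Nat.eq_zero_or_pos m with rfl | hm
  · simpa using Real.log_natCast_nonneg n
  · exact Real.log_le_log (by exact_mod_cast hm) (by exact_mod_cast h)

theorem tendsto_log_nat : Tendsto (fun n : ℕ => Real.log n) atTop atTop :=
  Real.tendsto_log_atTop.comp tendsto_natCast_atTop_atTop

theorem ev_small {θ : ℝ} (hθ1 : θ < 1) : ∀ᶠ L : ℝ in atTop, Real.log 100 + L ^ θ ≤ L := by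
  have h1 : Tendsto (fun L : ℝ => L ^ (1 - θ)) atTop atTop := tendsto_rpow_atTop (by linarith)
  have h2 : Tendsto (fun L : ℝ => L) atTop atTop := tendsto_id
  filter_upwards [h1.eventually (eventually_ge_atTop 2),
    h2.eventually (eventually_ge_atTop (2 * Real.log 100)), eventually_gt_atTop 0] with L h3 h4 h5
  have h6 : L = L ^ θ * L ^ (1 - θ) := by
    rw [← Real.rpow_add h5]; ring_nf; exact (Real.rpow_one L).symm
  have h7 : 0 < L ^ θ := Real.rpow_pos_of_pos h5 θ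
  have h8 : 2 * L ^ θ ≤ L := by
    calc 2 * L ^ θ ≤ L ^ (1 - θ) * L ^ θ := mul_le_mul_of_nonneg_right h3 h7.le
      _ = L := by rw [mul_comm]; exact h6.symm
  linarith

theorem ev_three {θ a ε : ℝ} (hθ : 0 < θ) (hθ1 : θ < 1) (ha : 0 ≤ a) (hε : 0 < ε) :
    ∀ᶠ L : ℝ in atTop, (L + a) ^ θ ≤ L ^ θ + ε := by
  have h1 : Tendsto (fun L : ℝ => L ^ (-(1 - θ))) atTop (𝓝 0) := tendsto_rpow_neg_atTop (by linarith)
  have h2 := h1.const_mul a
  rw [mul_zero] at h2
  filter_upwards [(tendsto_order.1 h2).2 ε hε, eventually_gt_atTop 0] with L h3 h4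
  have h5 : (L + a) = L * (1 + a / L) := by field_simp
  have haL : 0 ≤ a / L := by positivity
  have h6 : (1 + a / L) ^ θ ≤ 1 + θ * (a / L) :=
    rpow_one_add_le_one_add_mul_self (by linarith) hθ.le hθ1.le
  have h7 : 0 < L ^ θ := Real.rpow_pos_of_pos h4 θ
  have h8 : L ^ θ * (a / L) = a * L ^ (-(1 - θ)) := by
    rw [show -(1 - θ) = θ - 1 by ring, Real.rpow_sub_one h4.ne']
    ring
  rw [h5, Real.mul_rpow h4.le (by positivity)]
  calc L ^ θ * (1 + a / L) ^ θ ≤ L ^ θ * (1 + θ * (a / L)) :=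
        mul_le_mul_of_nonneg_left h6 h7.le
    _ = L ^ θ + θ * (L ^ θ * (a / L)) := by ring
    _ ≤ L ^ θ + 1 * (L ^ θ * (a / L)) := by
        have : 0 ≤ L ^ θ * (a / L) := by positivity
        have := mul_le_mul_of_nonneg_right hθ1.le this
        linarith
    _ ≤ L ^ θ + ε := by rw [one_mul, h8]; linarith

theorem ev_GG {θ : ℝ} (hθ : 0 < θ) (hθ1 : θ < 1 / 2) :
    ∀ᶠ L : ℝ in atTop, Real.log 10 + (L + Real.log 8) ^ θ ≤ √ L / (Real.log L) ^ 16 := by
  set s := (1 / 2 - θ) / 2 with hs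
  have hs0 : 0 < s := by rw [hs]; linarith
  have h1 := (isLittleO_log_rpow_atTop (show 0 < s / 16 by positivity)).bound (show (0 : ℝ) < 1 by norm_num)
  have h2 : Tendsto (fun L : ℝ => L ^ s) atTop atTop := tendsto_rpow_atTop hs0
  have h3 : Tendsto (fun L : ℝ => L ^ θ) atTop atTop := tendsto_rpow_atTop hθ
  filter_upwards [h1, ev_three hθ (by linarith) (Real.log_nonneg (by norm_num : (1 : ℝ) ≤ 8)) one_pos,
    h2.eventually (eventually_ge_atTop 2), h3.eventually (eventually_ge_atTop (Real.log 10 + 1)),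
    eventually_gt_atTop (Real.exp 1)] with L h4 h5 h6 h7 h8
  have hL : 0 < L := (Real.exp_pos 1).trans h8
  have hlog : 1 < Real.log L := by rwa [Real.lt_log_iff_exp_lt hL]
  rw [one_mul, Real.norm_of_nonneg (by linarith), Real.norm_of_nonneg (Real.rpow_nonneg hL.le _)] at h4
  have h9 : (Real.log L) ^ 16 ≤ L ^ s := by
    calc (Real.log L) ^ 16 ≤ (L ^ (s / 16)) ^ 16 := by gcongr
      _ = L ^ s := by
        rw [← Real.rpow_natCast, ← Real.rpow_mul hL.le]; congr 1; push_cast; ring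
  have h10 : 0 < (Real.log L) ^ 16 := by positivity
  rw [le_div_iff₀ h10]
  have h11 : √ L = L ^ θ * L ^ s * L ^ s := by
    rw [Real.sqrt_eq_rpow, ← Real.rpow_add hL, ← Real.rpow_add hL]
    congr 1
    rw [hs]; ring
  have h12 : 0 < L ^ θ := Real.rpow_pos_of_pos hL θ
  have h13 : 0 < L ^ s := Real.rpow_pos_of_pos hL s
  have h14 : Real.log 10 + (L + Real.log 8) ^ θ ≤ 2 * L ^ θ := by linarith
  have h15 : 0 ≤ Real.log 10 + (L + Real.log 8) ^ θ := by
    have : 0 ≤ Real.log 10 := Real.log_nonneg (by norm_num)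
    have : 0 ≤ (L + Real.log 8) ^ θ := Real.rpow_nonneg (by
      have := Real.log_nonneg (show (1 : ℝ) ≤ 8 by norm_num); linarith) _
    linarith
  calc (Real.log 10 + (L + Real.log 8) ^ θ) * (Real.log L) ^ 16
      ≤ (2 * L ^ θ) * L ^ s := mul_le_mul h14 h9 h10.le (by positivity)
    _ ≤ (L ^ s * L ^ θ) * L ^ s := by gcongr
    _ = √ L := by rw [h11]; ring

theorem ww_small {θ : ℝ} (hθ1 : θ < 1) : ∀ᶠ n : ℕ in atTop, 100 * ww θ n ≤ n := by
  filter_upwards [tendsto_log_nat.eventually (ev_small hθ1), eventually_gt_atTop 0] with n h1 h2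
  have hn : (0 : ℝ) < n := by exact_mod_cast h2
  unfold ww
  calc 100 * Real.exp (Real.log n ^ θ) = Real.exp (Real.log 100 + Real.log n ^ θ) := by
        rw [Real.exp_add, Real.exp_log (by norm_num)]
    _ ≤ Real.exp (Real.log n) := Real.exp_le_exp.2 h1
    _ = n := Real.exp_log hn

theorem ww_three {θ : ℝ} (hθ : 0 < θ) (hθ1 : θ < 1) :
    ∀ᶠ n : ℕ in atTop, ww θ (3 * n) ≤ 3 / 2 * ww θ n := by
  have hl : 0 < Real.log (3 / 2) := Real.log_pos (by norm_num)
  filter_upwards [tendsto_log_nat.eventually (ev_three hθ hθ1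
    (Real.log_nonneg (show (1 : ℝ) ≤ 3 by norm_num)) hl), eventually_gt_atTop 0] with n h1 h2
  have hn : (0 : ℝ) < n := by exact_mod_cast h2
  unfold ww
  have h3 : Real.log ((3 * n : ℕ) : ℝ) = Real.log n + Real.log 3 := by
    push_cast
    rw [Real.log_mul (by norm_num) hn.ne']; ring
  rw [h3]
  calc Real.exp ((Real.log n + Real.log 3) ^ θ) ≤ Real.exp (Real.log n ^ θ + Real.log (3 / 2)) :=
        Real.exp_le_exp.2 h1
    _ = 3 / 2 * Real.exp (Real.log n ^ θ) := by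
        rw [Real.exp_add, Real.exp_log (by norm_num)]; ring

theorem ww_GG {θ : ℝ} (hθ : 0 < θ) (hθ1 : θ < 1 / 2) :
    ∀ᶠ x : ℕ in atTop, ∀ y : ℕ, x ≤ 2 * y → 10 * ww θ (4 * x) ≤ GG y := by
  have h1 : ∀ᶠ y : ℕ in atTop, 10 * ww θ (8 * y) ≤ GG y := by
    filter_upwards [tendsto_log_nat.eventually (ev_GG hθ hθ1), eventually_gt_atTop 0] with y h1 h2
    have hn : (0 : ℝ) < y := by exact_mod_cast h2
    unfold ww GG
    have h3 : Real.log ((8 * y : ℕ) : ℝ) = Real.log y + Real.log 8 := by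
      push_cast
      rw [Real.log_mul (by norm_num) hn.ne']; ring
    rw [h3]
    calc 10 * Real.exp ((Real.log y + Real.log 8) ^ θ) =
          Real.exp (Real.log 10 + (Real.log y + Real.log 8) ^ θ) := by
          rw [Real.exp_add, Real.exp_log (by norm_num)]
      _ ≤ _ := Real.exp_le_exp.2 h1
  obtain ⟨y0, hy0⟩ := h1.exists_forall_of_atTop
  filter_upwards [eventually_ge_atTop (2 * y0)] with x hx y hxy
  have h3 := hy0 y (by omega)
  have h4 : ww θ (4 * x) ≤ ww θ (8 * y) := ww_mono hθ (by omega)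
  linarith

theorem Tn_two_mul (m : ℕ) : Tn (2 * m) = m := by
  unfold Tn
  rw [if_pos (by omega)]; omega

/-- The main theorem, for slowly varying distances. -/
theorem main {P : ℕ → Prop} (hP : ∀ n : ℕ, 1 ≤ n → (P n ↔ P (Tn n)))
    (hex : ∃ n, 1 ≤ n ∧ P n) (hall : ∃ n, 1 ≤ n ∧ ¬ P n) {w : ℕ → ℝ} (w0 : ∀ n, 0 ≤ w n)
    (wm : Monotone w) (hw1 : ∀ᶠ n : ℕ in atTop, 100 * w n ≤ n)
    (hw2 : ∀ᶠ n : ℕ in atTop, w (3 * n) ≤ 3 / 2 * w n)
    (hw3 : ∀ᶠ x : ℕ in atTop, ∀ y : ℕ, x ≤ 2 * y → 2 * ((3 * w (4 * x) + 1) + 1) ≤ GG y) :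
    ¬ Summable (fun n : {n : ℕ | Lone w P n} => (w n + 1) / ((n : ℕ) : ℝ)) := by
  classical
  obtain ⟨l, _, _, hl, hl2, _⟩ := nat_density (P := P) hP
  have hl0 : 0 < l := hl2.2 hex
  have hC : Tendsto (fun N : ℕ => (C P N : ℝ) / N) atTop (𝓝 l) := by
    refine hl.congr fun N => ?_
    rw [C_eq]
  have hH1 : ∀ᶠ x : ℕ in atTop, 2 * ((3 * w (4 * x) + 1) + 1) ≤ (x : ℝ) := by
    have h1 : Tendsto (fun x : ℕ => 4 * x) atTop atTop :=
      tendsto_atTop_mono (fun x => by show x ≤ 4 * x; omega) tendsto_id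
    filter_upwards [h1.eventually hw1, eventually_ge_atTop 8] with x h2 h3
    have h4 : (8 : ℝ) ≤ x := by exact_mod_cast h3
    push_cast at h2
    linarith
  obtain ⟨c, hc, hA⟩ := windows (Q := fun n => ¬ P n) (fun n hn => not_congr (hP n hn)) hall
    (H := fun x => 3 * w (4 * x) + 1) (fun x => by have := w0 (4 * x); positivity) hw3 hH1
  exact core (fun m hm => by
    have := hP (2 * m) (by omega)
    rwa [Tn_two_mul] at this) w0 wm hw1 hw2 hl0 hC hc hA

theorem main_ww {P : ℕ → Prop} (hP : ∀ n : ℕ, 1 ≤ n → (P n ↔ P (Tn n)))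
    (hex : ∃ n, 1 ≤ n ∧ P n) (hall : ∃ n, 1 ≤ n ∧ ¬ P n) {θ : ℝ} (hθ : 0 < θ) (hθ1 : θ < 1 / 2) :
    ¬ Summable (fun n : {n : ℕ | Lone (ww θ) P n} => ww θ n / ((n : ℕ) : ℝ)) := by
  intro hsum
  refine main hP hex hall (w := ww θ) (fun n => (by linarith [one_le_ww θ n])) (ww_mono hθ)
    (ww_small (by linarith)) (ww_three hθ (by linarith)) ?_ ?_
  · filter_upwards [ww_GG hθ hθ1] with x hx y hxy
    have h1 := hx y hxy
    have h2 := one_le_ww θ (4 * x)
    linarith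
  · refine Summable.of_nonneg_of_le (fun n => ?_) (fun n => ?_) (hsum.mul_left 2)
    · have := one_le_ww θ n
      positivity
    · rw [← mul_div_assoc]
      apply div_le_div_of_nonneg_right _ (Nat.cast_nonneg _)
      have := one_le_ww θ n
      linarith

theorem main_const {P : ℕ → Prop} (hP : ∀ n : ℕ, 1 ≤ n → (P n ↔ P (Tn n)))
    (hex : ∃ n, 1 ≤ n ∧ P n) (hall : ∃ n, 1 ≤ n ∧ ¬ P n) (M : ℝ) (hM : 0 ≤ M) :
    ¬ Summable (fun n : {n : ℕ | Lone (fun _ => M) P n} => 1 / ((n : ℕ) : ℝ)) := by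
  intro hsum
  refine main hP hex hall (w := fun _ => M) (fun n => hM) monotone_const
    ?_ ?_ ?_ ?_
  · exact tendsto_natCast_atTop_atTop.eventually (eventually_ge_atTop (100 * M))
  · exact Eventually.of_forall fun n => by linarith
  · have h1 : Tendsto (fun x : ℕ => ww (1 / 4) (4 * x)) atTop atTop := by
      unfold ww
      refine Real.tendsto_exp_atTop.comp ((tendsto_rpow_atTop (by norm_num)).comp
        (tendsto_log_nat.comp ?_))
      exact tendsto_atTop_mono (fun x => by show x ≤ 4 * x; omega) tendsto_id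
    filter_upwards [ww_GG (θ := 1 / 4) (by norm_num) (by norm_num),
      h1.eventually (eventually_ge_atTop M)] with x hx h2 y hxy
    have h3 := hx y hxy
    have h4 := one_le_ww (1 / 4) (4 * x)
    linarith
  · have := hsum.mul_left (M + 1)
    refine this.congr fun n => ?_
    ring

end Pool.Agent.Run7.h195.Iso
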