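import Mathlib
import Pool.Agent.Run7.h195.Iso5
import Pool.Agent.W38.AFe

set_option autoImplicit false

/-!
Isolated members of the sets of integers of either sign invariant under the Collatz map.
-/

namespace Pool.Agent.Run7.h195.Iso

open Filter Topology Finset

open Pool.Agent.W38.CR (GG)

open Pool.Agent.H499R2.ND (Ci cnt)

open Pool.Agent.W38.AF (NB kap inv_nbr)

theorem GG_kap (n : ℕ) : GG n = Real.exp (kap n) := rfl

theorem NB_near {n m : ℕ} {s : ℤ} (hs : s = 1 ∨ s = -1) (h : |(m : ℝ) - n| ≤ GG n) :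
    NB n (s * n) (s * m) := by
  have hk := Pool.Agent.W38.AF.kap_nonneg n
  refine ⟨0, 0, 0, 0, by simpa using hk, by simpa using hk, by simpa using hk, by simpa using hk, ?_⟩
  rw [← GG_kap]
  refine le_trans (le_of_eq ?_) h
  push_cast
  rcases hs with rfl | rfl
  · congr 1
    push_cast
    ring
  · rw [abs_sub_comm]
    congr 1
    push_cast
    ring

open Classical in
theorem windowsN {s : ℤ} (hs : s = 1 ∨ s = -1) {S : Set ℤ} (h : ∀ x : ℤ, x ∈ S ↔ Ci x ∈ S)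
    (hall : ∃ x, x ∉ S ∧ 0 < s * x) {H : ℕ → ℝ}
    (hH : ∀ᶠ x : ℕ in atTop, ∀ y : ℕ, x ≤ y → H x ≤ GG y) :
    ∃ c : ℝ, 0 < c ∧ ∀ᶠ x : ℕ in atTop, c * x ≤ (((Finset.Ico x (2 * x)).filter fun z : ℕ =>
      ∀ y : ℕ, |(y : ℝ) - z| ≤ H x → ¬ (s * (y : ℤ) ∈ S)).card : ℝ) := by
  obtain ⟨δ, h1, h2, h3⟩ := inv_nbr hs h
  have h4 := (h3 1 0 one_pos).2
  obtain ⟨l, hl⟩ : ∃ l : ℝ, l = 1 - δ := ⟨_, rfl⟩
  have hδ1 : δ ≤ 1 := by
    have h5 := (h3 1 0 one_pos).1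
    rw [Nat.cast_one, div_one] at h5
    refine le_of_tendsto' h5 fun N => ?_
    rcases Nat.eq_zero_or_pos N with rfl | hN
    · simp
    rw [div_le_one (by exact_mod_cast hN)]
    have h6 : {n : ℕ | 1 ≤ n ∧ n ≤ N ∧ n % 1 = 0 % 1 ∧ ∀ m, NB n (s * n) m → m ∈ S} ⊆
        ((Finset.Icc 1 N : Finset ℕ) : Set ℕ) := by
      intro n hn
      rw [Finset.coe_Icc, Set.mem_Icc]
      exact ⟨hn.1, hn.2.1⟩
    have h7 := Set.ncard_le_ncard h6 (Finset.finite_toSet _)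
    rw [Set.ncard_coe_finset, Nat.card_Icc, Nat.add_sub_cancel] at h7
    exact_mod_cast h7
  have hl0 : 0 < l := by
    rcases hδ1.lt_or_eq with h5 | h5
    · rw [hl]; linarith
    · exfalso
      obtain ⟨x, hx1, hx2⟩ := hall
      exact hx1 (h2.1 h5 x hx2)
  rw [Nat.cast_one, div_one, ← hl] at h4
  obtain ⟨Q, hQ⟩ : ∃ Q : ℕ → Prop, ∀ n, Q n ↔ ∀ m, NB n (s * n) m → m ∉ S := ⟨_, fun _ => Iff.rfl⟩
  have hC : Tendsto (fun N : ℕ => (C Q N : ℝ) / N) atTop (𝓝 l) := by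
    refine h4.congr fun N => ?_
    rw [← C_eq]
    congr 3
    ext n
    simp only [Set.mem_ofPred_eq, hQ]
    constructor
    · rintro ⟨a1, a2, -, a3⟩; exact ⟨a1, a2, a3⟩
    · rintro ⟨a1, a2, a3⟩; exact ⟨a1, a2, by omega, a3⟩
  have e1 : ∀ᶠ N : ℕ in atTop, |(C Q N : ℝ) / N - l| < l / 16 := by
    have h1 : Tendsto (fun N : ℕ => |(C Q N : ℝ) / N - l|) atTop (𝓝 0) := by
      have := (hC.sub_const l).abs
      simpa using this
    exact (tendsto_order.1 h1).2 (l / 16) (by positivity)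
  obtain ⟨N1, hN1⟩ := e1.exists_forall_of_atTop
  refine ⟨l / 4, by positivity, ?_⟩
  filter_upwards [hH, eventually_ge_atTop (N1 + 2), eventually_ge_atTop ⌈16 / l⌉₊] with x h1 h3 h3'
  have hx0 : (2 : ℝ) ≤ x := by
    have : 2 ≤ x := by omega
    exact_mod_cast this
  have hx16 : 16 / l ≤ x := (Nat.le_ceil _).trans (by exact_mod_cast h3')
  have hlx : 16 ≤ l * x := by
    rw [div_le_iff₀ hl0] at hx16
    linarith
  have a1 : (l * x - l / 4 * x) ≤ (((Finset.Ico x (2 * x)).filter Q).card : ℝ) := by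
    have b1 := hN1 (2 * x - 1) (by omega)
    have b2 := hN1 (x - 1) (by omega)
    have c1 : ((2 * x - 1 : ℕ) : ℝ) = 2 * x - 1 := by
      rw [Nat.cast_sub (by omega)]; push_cast; ring
    have c2 : ((x - 1 : ℕ) : ℝ) = x - 1 := by
      rw [Nat.cast_sub (by omega)]; push_cast; ring
    rw [c1, abs_lt] at b1
    rw [c2, abs_lt] at b2
    have p1 : (0 : ℝ) < 2 * x - 1 := by linarith
    have p2 : (0 : ℝ) < x - 1 := by linarith
    have b3 : (l - l / 16) * (2 * x - 1) < (C Q (2 * x - 1) : ℝ) := by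
      have := b1.1
      rw [← lt_div_iff₀ p1]; linarith
    have b4 : (C Q (x - 1) : ℝ) < (l + l / 16) * (x - 1) := by
      have := b2.2
      rw [← div_lt_iff₀ p2]; linarith
    have b5 := card_Ioc_filter (u := Q) (show x - 1 ≤ 2 * x - 1 by omega)
    have b6 : (Finset.Ioc (x - 1) (2 * x - 1)).filter Q = (Finset.Ico x (2 * x)).filter Q := by
      congr 1
      ext n
      simp only [Finset.mem_Ioc, Finset.mem_Ico]
      omega
    rw [b6] at b5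
    have b7 : (((Finset.Ico x (2 * x)).filter Q).card : ℝ) + C Q (x - 1) = C Q (2 * x - 1) := by
      exact_mod_cast b5
    nlinarith
  have a3 : ((Finset.Ico x (2 * x)).filter Q) ⊆ (Finset.Ico x (2 * x)).filter fun z : ℕ =>
      ∀ y : ℕ, |(y : ℝ) - z| ≤ H x → ¬ (s * (y : ℤ) ∈ S) := by
    intro z hz
    rw [Finset.mem_filter, Finset.mem_Ico] at hz
    rw [Finset.mem_filter, Finset.mem_Ico]
    refine ⟨hz.1, fun y hy => (hQ z).1 hz.2 _ (NB_near hs (hy.trans (h1 z hz.1.1)))⟩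
  have a4 : (((Finset.Ico x (2 * x)).filter Q).card : ℝ) ≤ (((Finset.Ico x (2 * x)).filter fun z : ℕ =>
      ∀ y : ℕ, |(y : ℝ) - z| ≤ H x → ¬ (s * (y : ℤ) ∈ S)).card : ℝ) := by
    exact_mod_cast Finset.card_le_card a3
  nlinarith

/-- The main theorem, both signs, for slowly varying distances. -/
theorem mainN {s : ℤ} (hs : s = 1 ∨ s = -1) {S : Set ℤ} (h : ∀ x : ℤ, x ∈ S ↔ Ci x ∈ S)
    (hex : ∃ x ∈ S, 0 < s * x) (hall : ∃ x, x ∉ S ∧ 0 < s * x) {w : ℕ → ℝ} (w0 : ∀ n, 0 ≤ w n)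
    (wm : Monotone w) (hw1 : ∀ᶠ n : ℕ in atTop, 100 * w n ≤ n)
    (hw2 : ∀ᶠ n : ℕ in atTop, w (3 * n) ≤ 3 / 2 * w n)
    (hw3 : ∀ᶠ x : ℕ in atTop, ∀ y : ℕ, x ≤ y → 3 * w (4 * x) + 1 ≤ GG y) :
    ¬ Summable (fun n : {n : ℕ | Lone w (fun n : ℕ => s * (n : ℤ) ∈ S) n} =>
      (w n + 1) / ((n : ℕ) : ℝ)) := by
  classical
  obtain ⟨δ, h1, h2, h3⟩ := Pool.Agent.H426R3.CLoc.inv_dens hs h
  have hl0 : 0 < δ := h1.2 hex
  have hC : Tendsto (fun N : ℕ => (C (fun n : ℕ => s * (n : ℤ) ∈ S) N : ℝ) / N) atTop (𝓝 δ) := by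
    have h4 := h3 1 0 one_pos
    rw [Nat.cast_one, div_one] at h4
    refine h4.congr fun N => ?_
    have e : cnt (fun n => n % 1 = 0 % 1 ∧ s * (n : ℤ) ∈ S) N =
        (C (fun n : ℕ => s * (n : ℤ) ∈ S) N : ℝ) := by
      unfold cnt
      rw [← C_eq]
      congr 2
      ext n
      simp only [Set.mem_ofPred_eq]
      constructor
      · rintro ⟨a1, a2, -, a3⟩; exact ⟨a1, a2, a3⟩
      · rintro ⟨a1, a2, a3⟩; exact ⟨a1, a2, by omega, a3⟩
    rw [e]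
  obtain ⟨c, hc, hA⟩ := windowsN hs h hall (H := fun x => 3 * w (4 * x) + 1) hw3
  refine core (fun m hm => ?_) w0 wm hw1 hw2 hl0 hC hc hA
  have h5 := h (s * (2 * m : ℕ))
  have h6 : Ci (s * (2 * m : ℕ)) = s * m := by
    unfold Ci
    rcases hs with rfl | rfl
    · rw [if_pos (by push_cast; omega)]; push_cast; omega
    · rw [if_pos (by push_cast; omega)]; push_cast; omega
  rw [h6] at h5
  exact h5

end Pool.Agent.Run7.h195.Iso
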